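import Pool.Agent.Lib.MP_05805c_nt.Graph

/-!
The map `r ↦ c r^d` on the multiplicative group of a prime field has at least `3^k / 2`
components, `k` the number of odd primes dividing `p - 1` but not `d (d - 1)`.
-/

set_option autoImplicit false

namespace Pool.Agent.Lib.MP_05805c_nt

open Function

/-- the sign of the quadratic character -/
noncomputable def chi (q : ℕ) [Fact q.Prime] (z : ZMod q) : SignType :=
  SignType.sign (quadraticChar (ZMod q) z)

lemma chi_mul (q : ℕ) [Fact q.Prime] (a b : ZMod q) : chi q (a * b) = chi q a * chi q b := by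
  unfold chi
  rw [map_mul, sign_mul]

lemma chi_sq (q : ℕ) [Fact q.Prime] {a : ZMod q} (ha : a ≠ 0) : chi q a * chi q a = 1 := by
  rw [← chi_mul]
  unfold chi
  rw [← sq, quadraticChar_sq_one' ha]
  simp

lemma chi_surj (q : ℕ) [Fact q.Prime] (hq : q ≠ 2) (u : SignType) : ∃ z : ZMod q, chi q z = u := by
  have hchar : ringChar (ZMod q) ≠ 2 := by rwa [ZMod.ringChar_zmod_n]
  rcases u with _ | _ | _
  · exact ⟨0, by simp [chi]⟩
  · obtain ⟨a, ha⟩ := FiniteField.exists_nonsquare hchar
    refine ⟨a, ?_⟩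
    have ha0 : a ≠ 0 := by
      rintro rfl
      exact ha (IsSquare.zero)
    have : quadraticChar (ZMod q) a = -1 := by
      rw [quadraticChar_neg_one_iff_not_isSquare]; exact ha
    simp [chi, this]
  · exact ⟨1, by simp [chi]⟩

/-- the odd primes dividing `m` but not `d (d-1)` -/
def oddPrimes (m d : ℕ) : Finset ℕ :=
  m.primeFactors.filter (fun q => q ≠ 2 ∧ ¬ q ∣ d * (d - 1))

theorem three_pow_le_comps {G : Type*} [CommGroup G] [Finite G] [IsCyclic G] (c : G) (d : ℕ)
    (hd : 1 ≤ d) : 3 ^ (oddPrimes (Nat.card G) d).card ≤ 2 * comps (fun r : G => c * r ^ d) := by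
  classical
  set n := Nat.card G with hn
  set Q := oddPrimes n d with hQ
  have hprime : ∀ q : Q, Fact (q : ℕ).Prime := fun q =>
    ⟨Nat.prime_of_mem_primeFactors (Finset.mem_filter.mp q.2).1⟩
  have hdvd : ∀ q : Q, (q : ℕ) ∣ n := fun q =>
    Nat.dvd_of_mem_primeFactors (Finset.mem_filter.mp q.2).1
  have hodd : ∀ q : Q, (q : ℕ) ≠ 2 := fun q => (Finset.mem_filter.mp q.2).2.1
  have hnd : ∀ q : Q, ¬ (q : ℕ) ∣ d * (d - 1) := fun q => (Finset.mem_filter.mp q.2).2.2
  -- discrete logarithm
  let L : G ≃* Multiplicative (ZMod n) := (zmodCyclicMulEquiv ‹IsCyclic G›).symm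
  let ℓ : ∀ q : Q, G → ZMod q := fun q r =>
    ZMod.castHom (hdvd q) (ZMod q) (Multiplicative.toAdd (L r))
  have hℓmul : ∀ (q : Q) (r s : G), ℓ q (r * s) = ℓ q r + ℓ q s := by
    intro q r s
    simp only [ℓ, map_mul, toAdd_mul, map_add]
  have hℓpow : ∀ (q : Q) (r : G) (k : ℕ), ℓ q (r ^ k) = k * ℓ q r := by
    intro q r k
    simp only [ℓ, map_pow, toAdd_pow, nsmul_eq_mul, map_mul, map_natCast]
  -- fixed point
  have hd0 : ∀ q : Q, (d : ZMod q) ≠ 0 := by
    intro q h
    have := hprime q
    rw [ZMod.natCast_eq_zero_iff] at h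
    exact hnd q (Dvd.dvd.mul_right h _)
  have hd1 : ∀ q : Q, (1 - (d : ZMod q)) ≠ 0 := by
    intro q h
    have := hprime q
    have h2 : ((d - 1 : ℕ) : ZMod q) = 0 := by
      rw [Nat.cast_sub hd, Nat.cast_one]
      rw [← neg_eq_zero, neg_sub]; exact h
    rw [ZMod.natCast_eq_zero_iff] at h2
    exact hnd q (Dvd.dvd.mul_left h2 _)
  let z0 : ∀ q : Q, ZMod q := fun q =>
    haveI := hprime q
    ℓ q c / (1 - (d : ZMod q))
  have hz0 : ∀ q : Q, z0 q = ℓ q c + d * z0 q := by
    intro q
    haveI := hprime q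
    have h1 : z0 q * (1 - (d : ZMod q)) = ℓ q c := div_mul_cancel₀ _ (hd1 q)
    linear_combination h1
  let φ : G → (Q → SignType) := fun r q =>
    haveI := hprime q
    chi q (ℓ q r - z0 q)
  let σ : Q → SignType := fun q =>
    haveI := hprime q
    chi q (d : ZMod q)
  let g' : (Q → SignType) → (Q → SignType) := fun u q => σ q * u q
  have hσ : ∀ q, σ q * σ q = 1 := fun q =>
    haveI := hprime q
    chi_sq q (hd0 q)
  have hinv : ∀ u, g' (g' u) = u := by
    intro u
    funext q
    change σ q * (σ q * u q) = u q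
    rw [← mul_assoc, hσ, one_mul]
  have hsemi : ∀ r, φ (c * r ^ d) = g' (φ r) := by
    intro r
    funext q
    haveI := hprime q
    change chi q (ℓ q (c * r ^ d) - z0 q) = chi q (d : ZMod q) * chi q (ℓ q r - z0 q)
    rw [← chi_mul, hℓmul, hℓpow]
    congr 1
    have := hz0 q
    linear_combination -this
  have hsurj : Function.Surjective φ := by
    intro u
    have hw : ∀ q : Q, ∃ w : ZMod q, (haveI := hprime q; chi q w) = u q := fun q =>
      haveI := hprime q
      chi_surj q (hodd q) (u q)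
    choose w hw using hw
    -- Chinese remainder theorem
    obtain ⟨k, hk⟩ := Nat.chineseRemainderOfFinset
      (fun q : Q => (haveI := hprime q; (w q + z0 q).val)) (fun q : Q => (q : ℕ)) Finset.univ
      (fun q _ => (hprime q).out.ne_zero)
      (by
        intro a _ b _ hab
        exact (Nat.coprime_primes (hprime a).out (hprime b).out).mpr
          (fun h => hab (Subtype.ext h)))
    refine ⟨L.symm (Multiplicative.ofAdd (k : ZMod n)), ?_⟩
    funext q
    haveI := hprime q
    change chi q (ℓ q (L.symm (Multiplicative.ofAdd (k : ZMod n))) - z0 q) = u q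
    have h1 : ℓ q (L.symm (Multiplicative.ofAdd (k : ZMod n))) = (k : ZMod q) := by
      simp only [ℓ, MulEquiv.apply_symm_apply, toAdd_ofAdd, map_natCast]
    have h2 : (k : ZMod q) = w q + z0 q := by
      have h3 := hk q (Finset.mem_univ q)
      have h4 := (ZMod.natCast_eq_natCast_iff _ _ _).mpr h3
      rw [h4, ZMod.natCast_val, ZMod.cast_id]
    rw [h1, h2, add_sub_cancel_right]
    exact hw q
  have h1 := comps_le_of_semiconj (fun r : G => c * r ^ d) g' φ hsurj hsemi
  have h2 := card_le_two_mul_comps g' hinv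
  have h3 : Fintype.card (Q → SignType) = 3 ^ Q.card := by
    rw [Fintype.card_fun, Fintype.card_coe]; rfl
  rw [h3] at h2
  omega

end Pool.Agent.Lib.MP_05805c_nt
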