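import Mathlib
import Pool.Agent.Lib.MP_05805c_nt.Power

/-!
More comparison lemmas for the number of components, and the Chebyshev (Dickson) map.
-/

set_option autoImplicit false

namespace Pool.Agent.Lib.MP_05805c_nt

open Function

section general

variable {S : Type*} (g : S → S)

/-- two points in one component have a common iterate -/
lemma exists_iterate_eq_of_reachable {x y : S} (h : (fgraph g).Reachable x y) :
    ∃ i j : ℕ, g^[i] x = g^[j] y := by
  obtain ⟨w⟩ := h
  induction w with
  | nil => exact ⟨0, 0, rfl⟩
  | @cons u v w hadj _ ih =>
    obtain ⟨i, j, hij⟩ := ih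
    rw [fgraph, SimpleGraph.fromRel_adj] at hadj
    rcases hadj.2 with h1 | h1
    · -- g u = v
      refine ⟨i + 1, j, ?_⟩
      rw [Function.iterate_succ_apply, h1, hij]
    · -- g v = u
      refine ⟨i, j + 1, ?_⟩
      rw [Function.iterate_succ_apply', ← hij, ← Function.iterate_succ_apply' g,
        Function.iterate_succ_apply, h1]

lemma mk_eq_of_iterate_eq {x y : S} {i j : ℕ} (h : g^[i] x = g^[j] y) :
    (fgraph g).connectedComponentMk x = (fgraph g).connectedComponentMk y := by
  rw [← comp_iterate_eq g x i, ← comp_iterate_eq g y j, h]

lemma finite_comps [Finite S] : Finite (fgraph g).ConnectedComponent :=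
  Finite.of_surjective (fgraph g).connectedComponentMk (fun c => c.exists_rep)

/-- the restriction to a forward invariant set has at most as many components -/
lemma comps_restrict_le [Finite S] (V : Set S) (hV : ∀ x ∈ V, g x ∈ V) :
    comps (fun x : V => (⟨g x, hV x x.2⟩ : V)) ≤ comps g := by
  classical
  haveI := finite_comps g
  set g' : V → V := fun x => ⟨g x, hV x x.2⟩ with hg'
  have hit : ∀ (x : V) (n : ℕ), ((g'^[n] x : V) : S) = g^[n] x := by
    intro x n
    induction n with
    | zero => rfl
    | succ n ih => rw [Function.iterate_succ_apply', Function.iterate_succ_apply', ← ih]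
  have hwd : ∀ x y : V, (fgraph g').Reachable x y →
      (fgraph g).connectedComponentMk (x : S) = (fgraph g).connectedComponentMk (y : S) := by
    intro x y h
    obtain ⟨i, j, hij⟩ := exists_iterate_eq_of_reachable g' h
    apply mk_eq_of_iterate_eq g (i := i) (j := j)
    rw [← hit, ← hit, hij]
  let F : (fgraph g').ConnectedComponent → (fgraph g).ConnectedComponent :=
    SimpleGraph.ConnectedComponent.lift (fun x => (fgraph g).connectedComponentMk (x : S))
      (fun x y p _ => hwd x y ⟨p⟩)
  apply Nat.card_le_card_of_injective F
  intro c1 c2 h
  induction c1 using SimpleGraph.ConnectedComponent.ind with | h x => ?_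
  induction c2 using SimpleGraph.ConnectedComponent.ind with | h y => ?_
  have h1 : (fgraph g).connectedComponentMk (x : S) = (fgraph g).connectedComponentMk (y : S) := h
  have h2 := SimpleGraph.ConnectedComponent.exact h1
  obtain ⟨i, j, hij⟩ := exists_iterate_eq_of_reachable g h2
  apply mk_eq_of_iterate_eq g' (i := i) (j := j)
  apply Subtype.ext
  rw [hit, hit, hij]

/-- a quotient by a commuting involution at most halves the number of components -/
lemma comps_le_two_mul_of_involution {S' : Type*} [Finite S] [Finite S'] (h : S' → S')
    (π : S → S') (ι : S → S) (hπ : ∀ x, π (g x) = h (π x)) 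
    (hfib : ∀ x y, π x = π y → x = y ∨ x = ι y) (hι : ∀ x, ι (g x) = g (ι x)) :
    comps g ≤ 2 * comps h := by
  classical
  haveI := finite_comps g
  haveI := finite_comps h
  haveI := Fintype.ofFinite (fgraph g).ConnectedComponent
  haveI := Fintype.ofFinite (fgraph h).ConnectedComponent
  have hπit : ∀ (x : S) (n : ℕ), π (g^[n] x) = h^[n] (π x) := by
    intro x n
    induction n with
    | zero => rfl
    | succ n ih => rw [Function.iterate_succ_apply', Function.iterate_succ_apply', hπ, ih]
  have hιit : ∀ (x : S) (n : ℕ), ι (g^[n] x) = g^[n] (ι x) := by
    intro x n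
    induction n with
    | zero => rfl
    | succ n ih => rw [Function.iterate_succ_apply', Function.iterate_succ_apply', hι, ih]
  let F : (fgraph g).ConnectedComponent → (fgraph h).ConnectedComponent :=
    SimpleGraph.ConnectedComponent.lift (fun x => (fgraph h).connectedComponentMk (π x))
      (fun x y p _ => by
        obtain ⟨i, j, hij⟩ := exists_iterate_eq_of_reachable g ⟨p⟩
        apply mk_eq_of_iterate_eq h (i := i) (j := j)
        rw [← hπit, ← hπit, hij])
  have key : ∀ c ∈ (Finset.univ : Finset (fgraph h).ConnectedComponent),
      ((Finset.univ : Finset (fgraph g).ConnectedComponent).filter (fun d => F d = c)).card ≤ 2 := by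
    intro c _
    by_cases hc : ∃ x : S, (fgraph h).connectedComponentMk (π x) = c
    · obtain ⟨x, hx⟩ := hc
      have hsub : ((Finset.univ : Finset (fgraph g).ConnectedComponent).filter
          (fun d => F d = c)) ⊆ {(fgraph g).connectedComponentMk x,
            (fgraph g).connectedComponentMk (ι x)} := by
        intro d hd
        rw [Finset.mem_filter] at hd
        obtain ⟨_, hd⟩ := hd
        induction d using SimpleGraph.ConnectedComponent.ind with | h y => ?_
        have h1 : (fgraph h).connectedComponentMk (π y) = (fgraph h).connectedComponentMk (π x) := by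
          rw [hx]; exact hd
        obtain ⟨i, j, hij⟩ := exists_iterate_eq_of_reachable h
          (SimpleGraph.ConnectedComponent.exact h1)
        rw [← hπit, ← hπit] at hij
        rw [Finset.mem_insert, Finset.mem_singleton]
        rcases hfib _ _ hij with h2 | h2
        · left; exact mk_eq_of_iterate_eq g h2
        · right
          rw [hιit] at h2
          exact mk_eq_of_iterate_eq g h2
      exact (Finset.card_le_card hsub).trans Finset.card_le_two
    · have : ((Finset.univ : Finset (fgraph g).ConnectedComponent).filter (fun d => F d = c)) = ∅ := by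
        rw [Finset.filter_eq_empty_iff]
        intro d _ hd
        induction d using SimpleGraph.ConnectedComponent.ind with | h y => ?_
        exact hc ⟨y, hd⟩
      rw [this]; simp
  have h1 := Finset.card_le_mul_card_image_of_maps_to
    (s := (Finset.univ : Finset (fgraph g).ConnectedComponent))
    (t := (Finset.univ : Finset (fgraph h).ConnectedComponent)) (f := F)
    (fun _ _ => Finset.mem_univ _) 2 key
  unfold comps
  rw [Nat.card_eq_fintype_card, Nat.card_eq_fintype_card]
  simpa using h1

end general

end Pool.Agent.Lib.MP_05805c_nt
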