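import Mathlib

/-!
# Counting roots of `x (a x + 1)` modulo `d` (adapted from helper2's `Sieve/Roots.lean`)
-/

open Finset

namespace Pool.Agent.Lib.MP_05805c_nt.LinSieve

/-- number of `x mod d` with `d ∣ x (a x + 1)` -/
def rootCount (a d : ℕ) : ℕ := ((Finset.range d).filter (fun x => d ∣ x * (a * x + 1))).card

theorem rootCount_one (a : ℕ) : rootCount a 1 = 1 := by
  unfold rootCount
  rw [Finset.filter_true_of_mem]
  · simp
  · intro x _; exact one_dvd _

theorem dvd_mod_iff (a d m x : ℕ) (h : m ∣ d) : m ∣ (x % d) * (a * (x % d) + 1) ↔ m ∣ x * (a * x + 1) := by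
  have h1 : x % d ≡ x [MOD m] := (Nat.mod_modEq x d).of_dvd h
  have h2 : (x % d) * (a * (x % d) + 1) ≡ x * (a * x + 1) [MOD m] := h1.mul ((h1.mul_left a).add_right 1)
  constructor
  · intro h3
    exact (Nat.modEq_zero_iff_dvd.mp (h2.symm.trans (Nat.modEq_zero_iff_dvd.mpr h3)))
  · intro h3
    exact (Nat.modEq_zero_iff_dvd.mp (h2.trans (Nat.modEq_zero_iff_dvd.mpr h3)))

theorem rootCount_mul (a : ℕ) {m n : ℕ} (hm : m ≠ 0) (hn : n ≠ 0) (h : m.Coprime n) :
    rootCount a (m * n) = rootCount a m * rootCount a n := by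
  unfold rootCount
  rw [← Finset.card_product]
  refine Finset.card_nbij' (fun x => (x % m, x % n))
    (fun y => (Nat.chineseRemainder h y.1 y.2 : ℕ)) ?_ ?_ ?_ ?_
  · intro x hx
    rw [Finset.mem_coe, Finset.mem_filter, Finset.mem_range] at hx
    rw [Finset.mem_coe, Finset.mem_product, Finset.mem_filter, Finset.mem_filter,
      Finset.mem_range, Finset.mem_range]
    refine ⟨⟨Nat.mod_lt _ (Nat.pos_of_ne_zero hm), ?_⟩, Nat.mod_lt _ (Nat.pos_of_ne_zero hn), ?_⟩
    · exact (dvd_mod_iff a m m x dvd_rfl).mpr ((Dvd.intro _ rfl).trans hx.2)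
    · exact (dvd_mod_iff a n n x dvd_rfl).mpr ((Dvd.intro_left _ rfl).trans hx.2)
  · intro y hy
    rw [Finset.mem_coe, Finset.mem_product, Finset.mem_filter, Finset.mem_filter,
      Finset.mem_range, Finset.mem_range] at hy
    rw [Finset.mem_coe, Finset.mem_filter, Finset.mem_range]
    obtain ⟨⟨h1, h2⟩, h3, h4⟩ := hy
    have hc := (Nat.chineseRemainder h y.1 y.2).2
    refine ⟨Nat.chineseRemainder_lt_mul h _ _ hm hn, ?_⟩
    apply Nat.Coprime.mul_dvd_of_dvd_of_dvd h
    · have e : (Nat.chineseRemainder h y.1 y.2 : ℕ) % m = y.1 := by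
        have := hc.1
        unfold Nat.ModEq at this
        rw [this, Nat.mod_eq_of_lt h1]
      rw [← dvd_mod_iff a m m _ dvd_rfl, e]
      exact h2
    · have e : (Nat.chineseRemainder h y.1 y.2 : ℕ) % n = y.2 := by
        have := hc.2
        unfold Nat.ModEq at this
        rw [this, Nat.mod_eq_of_lt h3]
      rw [← dvd_mod_iff a n n _ dvd_rfl, e]
      exact h4
  · intro x hx
    rw [Finset.mem_coe, Finset.mem_filter, Finset.mem_range] at hx
    have hu := Nat.chineseRemainder_modEq_unique h (a := x % m) (b := x % n) (z := x)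
      (Nat.mod_modEq x m).symm (Nat.mod_modEq x n).symm
    have hlt := Nat.chineseRemainder_lt_mul h (x % m) (x % n) hm hn
    unfold Nat.ModEq at hu
    rw [Nat.mod_eq_of_lt hx.1, Nat.mod_eq_of_lt hlt] at hu
    exact hu.symm
  · intro y hy
    rw [Finset.mem_coe, Finset.mem_product, Finset.mem_filter, Finset.mem_filter,
      Finset.mem_range, Finset.mem_range] at hy
    obtain ⟨⟨h1, h2⟩, h3, h4⟩ := hy
    have hc := (Nat.chineseRemainder h y.1 y.2).2
    have e1 : (Nat.chineseRemainder h y.1 y.2 : ℕ) % m = y.1 % m := hc.1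
    have e2 : (Nat.chineseRemainder h y.1 y.2 : ℕ) % n = y.2 % n := hc.2
    exact Prod.ext (e1.trans (Nat.mod_eq_of_lt h1)) (e2.trans (Nat.mod_eq_of_lt h3))

theorem rootCount_prime (a : ℕ) {p : ℕ} (hp : p.Prime) :
    rootCount a p = if p ∣ a then 1 else 2 := by
  unfold rootCount
  have hp0 := hp.pos
  haveI : Fact p.Prime := ⟨hp⟩
  split_ifs with h
  · have : (Finset.range p).filter (fun x => p ∣ x * (a * x + 1)) = {0} := by
      ext x
      rw [Finset.mem_filter, Finset.mem_range, Finset.mem_singleton]
      constructor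
      · rintro ⟨hx, hd⟩
        rcases (Nat.Prime.dvd_mul hp).mp hd with h1 | h1
        · exact Nat.eq_zero_of_dvd_of_lt h1 hx
        · have : p ∣ 1 := (Nat.dvd_add_right (Dvd.dvd.mul_right h x)).mp h1
          exact absurd (Nat.dvd_one.mp this) hp.one_lt.ne'
      · rintro rfl
        exact ⟨hp0, by simp⟩
    rw [this, Finset.card_singleton]
  · have ha : (a : ZMod p) ≠ 0 := by
      intro h0
      exact h ((ZMod.natCast_eq_zero_iff _ _).mp h0)
    set r : ZMod p := -(a : ZMod p)⁻¹ with hr
    have hr0 : r ≠ 0 := by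
      rw [hr]; exact neg_ne_zero.mpr (inv_ne_zero ha)
    have : (Finset.range p).filter (fun x => p ∣ x * (a * x + 1)) = {0, r.val} := by
      ext x
      rw [Finset.mem_filter, Finset.mem_range, Finset.mem_insert, Finset.mem_singleton]
      constructor
      · rintro ⟨hx, hd⟩
        rcases (Nat.Prime.dvd_mul hp).mp hd with h1 | h1
        · exact Or.inl (Nat.eq_zero_of_dvd_of_lt h1 hx)
        · right
          have h2 : ((a * x + 1 : ℕ) : ZMod p) = 0 := (ZMod.natCast_eq_zero_iff _ _).mpr h1
          push_cast at h2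
          have h3 : (x : ZMod p) = r := by
            rw [hr]
            field_simp
            linear_combination h2
          rw [← h3, ZMod.val_natCast, Nat.mod_eq_of_lt hx]
      · rintro (rfl | rfl)
        · exact ⟨hp0, by simp⟩
        · refine ⟨ZMod.val_lt r, ?_⟩
          apply Dvd.dvd.mul_left
          rw [← ZMod.natCast_eq_zero_iff]
          push_cast
          rw [ZMod.natCast_val, ZMod.cast_id, hr]
          field_simp
          ring
    rw [this, Finset.card_pair]
    intro h0
    exact hr0 ((ZMod.val_eq_zero r).mp h0.symm)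

/-- for squarefree `d` -/
theorem rootCount_squarefree (a : ℕ) {d : ℕ} (hd : Squarefree d) :
    (rootCount a d : ℝ) = ∏ p ∈ d.primeFactors, (if p ∣ a then (1 : ℝ) else 2) := by
  induction d using Nat.recOnPosPrimePosCoprime with
  | prime_pow p n hp hn =>
    have : n = 1 := by
      by_contra h
      have h2 : 2 ≤ n := by omega
      have : p * p ∣ p ^ n := by
        rw [← sq]; exact pow_dvd_pow p h2
      have := hd p this
      exact hp.one_lt.ne' (Nat.isUnit_iff.mp this)
    subst this
    rw [pow_one, rootCount_prime a hp, hp.primeFactors, Finset.prod_singleton]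
    split_ifs <;> norm_num
  | zero => exact absurd hd not_squarefree_zero
  | one => rw [rootCount_one]; simp
  | coprime m n hm hn h ihm ihn =>
    rw [rootCount_mul a (by omega) (by omega) h, h.primeFactors_mul,
      Finset.prod_union h.disjoint_primeFactors]
    push_cast
    rw [ihm (hd.squarefree_of_dvd (Dvd.intro _ rfl)), ihn (hd.squarefree_of_dvd (Dvd.intro_left _ rfl))]

theorem rootCount_le (a d : ℕ) : rootCount a d ≤ d := by
  unfold rootCount
  exact (Finset.card_filter_le _ _).trans (by simp)

/-- count in an interval -/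
theorem count_periodic (a d : ℕ) (k : ℕ) :
    ((Finset.Ico 1 (1 + d * k)).filter (fun x => d ∣ x * (a * x + 1))).card = k * rootCount a d := by
  have hper : Function.Periodic (fun x => d ∣ x * (a * x + 1)) d := by
    intro x
    have h2 : (x + d) * (a * (x + d) + 1) ≡ x * (a * x + 1) [MOD d] := by
      have h1 : x + d ≡ x [MOD d] := by simp [Nat.ModEq]
      exact h1.mul ((h1.mul_left a).add_right 1)
    apply propext
    constructor
    · intro h3
      exact (Nat.modEq_zero_iff_dvd.mp (h2.symm.trans (Nat.modEq_zero_iff_dvd.mpr h3)))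
    · intro h3
      exact (Nat.modEq_zero_iff_dvd.mp (h2.trans (Nat.modEq_zero_iff_dvd.mpr h3)))
  have hroot : rootCount a d = Nat.count (fun x => d ∣ x * (a * x + 1)) d := by
    unfold rootCount
    rw [Nat.count_eq_card_filter_range]
  induction k with
  | zero => simp
  | succ k ih =>
    have hsplit : Finset.Ico 1 (1 + d * (k + 1))
        = Finset.Ico 1 (1 + d * k) ∪ Finset.Ico (1 + d * k) (1 + d * k + d) := by
      rw [Finset.Ico_union_Ico_eq_Ico (by omega) (by omega)]
      congr 1
      ring
    rw [hsplit, Finset.filter_union, Finset.card_union_of_disjoint, ih,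
      Nat.filter_Ico_card_eq_of_periodic _ _ _ hper, ← hroot]
    · ring
    · apply Finset.disjoint_filter_filter
      exact Finset.Ico_disjoint_Ico_consecutive _ _ _

theorem abs_count_sub_le (a d N : ℕ) (hd : 0 < d) :
    |(((Finset.Icc 1 N).filter (fun x => d ∣ x * (a * x + 1))).card : ℝ)
      - (rootCount a d : ℝ) / d * N| ≤ rootCount a d := by
  set k := N / d with hk
  have h1 : d * k ≤ N := Nat.mul_div_le N d
  have h2 : N < d * (k + 1) := Nat.lt_mul_div_succ N hd
  have hIcc : Finset.Icc 1 N = Finset.Ico 1 (1 + N) := by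
    ext x; simp only [Finset.mem_Icc, Finset.mem_Ico]; omega
  have hlow : k * rootCount a d ≤ ((Finset.Icc 1 N).filter (fun x => d ∣ x * (a * x + 1))).card := by
    rw [← count_periodic a d k, hIcc]
    apply Finset.card_le_card
    apply Finset.filter_subset_filter
    apply Finset.Ico_subset_Ico le_rfl
    omega
  have hup : ((Finset.Icc 1 N).filter (fun x => d ∣ x * (a * x + 1))).card ≤ (k + 1) * rootCount a d := by
    rw [← count_periodic a d (k + 1), hIcc]
    apply Finset.card_le_card
    apply Finset.filter_subset_filter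
    apply Finset.Ico_subset_Ico le_rfl
    omega
  have hlow' : (k : ℝ) * rootCount a d
      ≤ (((Finset.Icc 1 N).filter (fun x => d ∣ x * (a * x + 1))).card : ℝ) := by exact_mod_cast hlow
  have hup' : (((Finset.Icc 1 N).filter (fun x => d ∣ x * (a * x + 1))).card : ℝ)
      ≤ ((k : ℝ) + 1) * rootCount a d := by exact_mod_cast hup
  have hdr : (0 : ℝ) < d := by exact_mod_cast hd
  have h1' : (d : ℝ) * k ≤ N := by exact_mod_cast h1
  have h2' : (N : ℝ) ≤ d * (k + 1) := by exact_mod_cast h2.le
  have hR : (0 : ℝ) ≤ rootCount a d := Nat.cast_nonneg _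
  have e1 : (k : ℝ) * rootCount a d ≤ (rootCount a d : ℝ) / d * N := by
    rw [div_mul_eq_mul_div, le_div_iff₀ hdr]
    nlinarith
  have e2 : (rootCount a d : ℝ) / d * N ≤ ((k : ℝ) + 1) * rootCount a d := by
    rw [div_mul_eq_mul_div, div_le_iff₀ hdr]
    nlinarith
  rw [abs_le]
  constructor <;> nlinarith

end Pool.Agent.Lib.MP_05805c_nt.LinSieve
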