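import Mathlib

/-!
Upper bounds of Mertens type.
-/

set_option autoImplicit false

namespace Pool.Agent.Lib.MP_05805c_nt

open Real Finset

/-- primes up to `n` -/
def primesTo (n : ℕ) : Finset ℕ := (Finset.Icc 1 n).filter Nat.Prime

lemma mem_primesTo {n q : ℕ} : q ∈ primesTo n ↔ q ≤ n ∧ q.Prime := by
  unfold primesTo
  rw [Finset.mem_filter, Finset.mem_Icc]
  constructor
  · rintro ⟨⟨_, h1⟩, h2⟩; exact ⟨h1, h2⟩
  · rintro ⟨h1, h2⟩; exact ⟨⟨h2.one_lt.le, h1⟩, h2⟩

lemma sum_log_primeFactors_le {m : ℕ} (hm : m ≠ 0) :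
    ∑ q ∈ m.primeFactors, Real.log q ≤ Real.log m := by
  rw [← Real.log_prod (fun q hq => by
    exact_mod_cast (Nat.prime_of_mem_primeFactors hq).ne_zero)]
  apply Real.log_le_log
  · apply Finset.prod_pos
    intro q hq
    exact_mod_cast (Nat.prime_of_mem_primeFactors hq).pos
  · have := Nat.le_of_dvd (Nat.pos_of_ne_zero hm) (Nat.prod_primeFactors_dvd m)
    rw [← Nat.cast_prod]
    exact_mod_cast this

lemma card_multiples_Icc (n q : ℕ) :
    ((Finset.Icc 1 n).filter (fun m => q ∣ m)).card = n / q := by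
  have h := Nat.Ioc_filter_dvd_card_eq_div n q
  have e : Finset.Icc 1 n = Finset.Ioc 0 n := by
    ext x; simp only [Finset.mem_Icc, Finset.mem_Ioc]; omega
  rw [e]; exact h

/-- `∑_{q ≤ n} ⌊n/q⌋ log q ≤ n log n` -/
lemma sum_floor_log_le (n : ℕ) :
    ∑ q ∈ primesTo n, ((n / q : ℕ) : ℝ) * Real.log q ≤ n * Real.log n := by
  have h1 : ∑ q ∈ primesTo n, ((n / q : ℕ) : ℝ) * Real.log q =
      ∑ m ∈ Finset.Icc 1 n, ∑ q ∈ m.primeFactors, Real.log q := by
    have h2 : ∀ m ∈ Finset.Icc 1 n, ∑ q ∈ m.primeFactors, Real.log q =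
        ∑ q ∈ primesTo n, if q ∣ m then Real.log q else 0 := by
      intro m hm
      rw [Finset.mem_Icc] at hm
      rw [← Finset.sum_filter]
      apply Finset.sum_congr _ (fun _ _ => rfl)
      ext q
      rw [Nat.mem_primeFactors, Finset.mem_filter, mem_primesTo]
      constructor
      · rintro ⟨h3, h4, _⟩
        exact ⟨⟨(Nat.le_of_dvd (by omega) h4).trans hm.2, h3⟩, h4⟩
      · rintro ⟨⟨_, h3⟩, h4⟩
        exact ⟨h3, h4, by omega⟩
    rw [Finset.sum_congr rfl h2, Finset.sum_comm]
    apply Finset.sum_congr rfl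
    intro q _
    rw [← Finset.sum_filter, Finset.sum_const, card_multiples_Icc, nsmul_eq_mul]
  rw [h1]
  calc ∑ m ∈ Finset.Icc 1 n, ∑ q ∈ m.primeFactors, Real.log q
      ≤ ∑ m ∈ Finset.Icc 1 n, Real.log n := by
        apply Finset.sum_le_sum
        intro m hm
        rw [Finset.mem_Icc] at hm
        refine (sum_log_primeFactors_le (by omega)).trans ?_
        apply Real.log_le_log
        · exact_mod_cast (by omega : 0 < m)
        · exact_mod_cast hm.2
    _ = n * Real.log n := by
        rw [Finset.sum_const, Nat.card_Icc, nsmul_eq_mul]; simp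

lemma theta_bound (n : ℕ) : ∑ q ∈ primesTo n, Real.log q ≤ Real.log 4 * n := by
  have h := Chebyshev.theta_le_log4_mul_x (x := (n : ℝ)) (Nat.cast_nonneg n)
  rw [Chebyshev.theta_eq_sum_Icc, Nat.floor_natCast] at h
  refine le_trans ?_ h
  apply Finset.sum_le_sum_of_subset_of_nonneg
  · intro q hq
    rw [mem_primesTo] at hq
    rw [Finset.mem_filter, Finset.mem_Icc]
    exact ⟨⟨Nat.zero_le _, hq.1⟩, hq.2⟩
  · intro q hq _
    exact Real.log_natCast_nonneg q

/-- the sum `∑_{q ≤ n} log q / q` -/
noncomputable def Amert (n : ℕ) : ℝ := ∑ q ∈ primesTo n, Real.log q / q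

/-- Mertens' first theorem, upper bound -/
lemma Amert_le (n : ℕ) (hn : 1 ≤ n) : Amert n ≤ Real.log n + Real.log 4 := by
  have hn0 : (0 : ℝ) < n := by exact_mod_cast hn
  have h1 := sum_floor_log_le n
  have h2 := theta_bound n
  have h3 : n * Amert n ≤ ∑ q ∈ primesTo n, (((n / q : ℕ) : ℝ) * Real.log q + Real.log q) := by
    unfold Amert
    rw [Finset.mul_sum]
    apply Finset.sum_le_sum
    intro q hq
    rw [mem_primesTo] at hq
    have hq0 : (0 : ℝ) < q := by exact_mod_cast hq.2.pos
    have h4 : (n : ℝ) / q ≤ ((n / q : ℕ) : ℝ) + 1 := by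
      rw [div_le_iff₀ hq0]
      have : n < q * (n / q + 1) := Nat.lt_mul_div_succ n hq.2.pos
      have h5 : (n : ℝ) ≤ q * (((n / q : ℕ) : ℝ) + 1) := by exact_mod_cast this.le
      linarith
    have h5 : 0 ≤ Real.log q := Real.log_natCast_nonneg q
    calc (n : ℝ) * (Real.log q / q) = (n : ℝ) / q * Real.log q := by ring
      _ ≤ (((n / q : ℕ) : ℝ) + 1) * Real.log q := mul_le_mul_of_nonneg_right h4 h5
      _ = _ := by ring
  rw [Finset.sum_add_distrib] at h3
  have h6 : n * Amert n ≤ n * (Real.log n + Real.log 4) := by nlinarith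
  exact le_of_mul_le_mul_left h6 hn0

/-- the sum `∑_{q ≤ n} 1 / q` -/
noncomputable def Smert (n : ℕ) : ℝ := ∑ q ∈ primesTo n, (1 : ℝ) / q

lemma primesTo_succ (n : ℕ) : primesTo (n + 1) =
    if (n + 1).Prime then insert (n + 1) (primesTo n) else primesTo n := by
  ext q
  split_ifs with h
  · rw [Finset.mem_insert, mem_primesTo, mem_primesTo]
    constructor
    · rintro ⟨h1, h2⟩
      by_cases hq : q = n + 1
      · exact Or.inl hq
      · exact Or.inr ⟨by omega, h2⟩
    · rintro (rfl | ⟨h1, h2⟩)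
      · exact ⟨le_rfl, h⟩
      · exact ⟨by omega, h2⟩
  · rw [mem_primesTo, mem_primesTo]
    constructor
    · rintro ⟨h1, h2⟩
      refine ⟨?_, h2⟩
      have : q ≠ n + 1 := by rintro rfl; exact h h2
      omega
    · rintro ⟨h1, h2⟩
      exact ⟨by omega, h2⟩

lemma not_mem_primesTo (n : ℕ) : n + 1 ∉ primesTo n := by
  rw [mem_primesTo]; omega

/-- Mertens' second theorem, upper bound: the inductive form. -/
lemma Smert_aux (n : ℕ) (hn : 2 ≤ n) :
    Smert n - Amert n / Real.log n ≤ (Real.log (Real.log n) - Real.log 4 / Real.log n)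
      + (Real.log 4 / Real.log 2 - Real.log (Real.log 2)) := by
  induction n, hn using Nat.le_induction with
  | base =>
    have h2 : primesTo 2 = {2} := by decide
    have hl : Real.log 2 ≠ 0 := (Real.log_pos (by norm_num)).ne'
    unfold Smert Amert
    rw [h2]
    simp only [Finset.sum_singleton, Nat.cast_ofNat]
    have : Real.log 2 / 2 / Real.log 2 = 1 / 2 := by field_simp
    rw [this]
    linarith
  | succ n hn ih =>
    have hn0 : (0 : ℝ) < n := by exact_mod_cast (by omega : 0 < n)
    have hl : 0 < Real.log n := Real.log_pos (by exact_mod_cast (by omega : 1 < n))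
    have hl' : 0 < Real.log ((n + 1 : ℕ) : ℝ) :=
      Real.log_pos (by exact_mod_cast (by omega : 1 < n + 1))
    have hll : Real.log n ≤ Real.log ((n + 1 : ℕ) : ℝ) :=
      Real.log_le_log hn0 (by exact_mod_cast (by omega : n ≤ n + 1))
    have key : Smert (n + 1) - Amert (n + 1) / Real.log ((n + 1 : ℕ) : ℝ) =
        Smert n - Amert n / Real.log ((n + 1 : ℕ) : ℝ) := by
      unfold Smert Amert
      rw [primesTo_succ]
      split_ifs with hp
      · rw [Finset.sum_insert (not_mem_primesTo n), Finset.sum_insert (not_mem_primesTo n)]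
        have h1 : ((n + 1 : ℕ) : ℝ) ≠ 0 := by positivity
        field_simp
        ring
      · rfl
    rw [key]
    have hA := Amert_le n (by omega)
    set l := Real.log n with hldef
    set l' := Real.log ((n + 1 : ℕ) : ℝ) with hl'def
    have hdiff : 0 ≤ 1 / l - 1 / l' := by
      rw [sub_nonneg]
      exact one_div_le_one_div_of_le hl hll
    have h1 : Smert n - Amert n / l' = (Smert n - Amert n / l) + Amert n * (1 / l - 1 / l') := by
      ring
    have h2 : Amert n * (1 / l - 1 / l') ≤ (l + Real.log 4) * (1 / l - 1 / l') :=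
      mul_le_mul_of_nonneg_right hA hdiff
    have h3 : (l + Real.log 4) * (1 / l - 1 / l') =
        (1 - l / l') + (Real.log 4 / l - Real.log 4 / l') := by
      field_simp
    have h4 : 1 - l / l' ≤ Real.log l' - Real.log l := by
      have h5 := Real.log_le_sub_one_of_pos (x := l / l') (by positivity)
      rw [Real.log_div hl.ne' hl'.ne'] at h5
      linarith
    rw [h1]
    linarith

/-- **Mertens' second theorem, upper bound.** -/
theorem Smert_le (n : ℕ) (hn : 2 ≤ n) : Smert n ≤ Real.log (Real.log n) + 4 := by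
  have hl : 0 < Real.log n := Real.log_pos (by exact_mod_cast (by omega : 1 < n))
  have h := Smert_aux n hn
  have hA := Amert_le n (by omega)
  have h1 : Amert n / Real.log n ≤ 1 + Real.log 4 / Real.log n := by
    rw [div_le_iff₀ hl]
    have : (1 + Real.log 4 / Real.log n) * Real.log n = Real.log n + Real.log 4 := by
      field_simp
    linarith
  have h2 : Real.log 4 / Real.log 2 = 2 := by
    have : (4 : ℝ) = 2 ^ 2 := by norm_num
    rw [this, Real.log_pow]
    have : Real.log 2 ≠ 0 := (Real.log_pos (by norm_num)).ne'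
    field_simp
    norm_num
  have h3 : -1 ≤ Real.log (Real.log 2) := by
    have h4 : (0.5 : ℝ) < Real.log 2 := by linarith [Real.log_two_gt_d9]
    have h5 : Real.exp (-1) ≤ 0.5 := by
      have := Real.exp_one_gt_d9
      rw [Real.exp_neg, inv_le_comm₀ (Real.exp_pos 1) (by norm_num)]
      norm_num
      linarith
    have h6 : Real.exp (-1) ≤ Real.log 2 := by linarith
    rw [Real.le_log_iff_exp_le (by linarith)]
    exact h6
  linarith

end Pool.Agent.Lib.MP_05805c_nt
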