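import Mathlib
import Pool.Agent.Lib.MP_05805c_nt.Mertens

/-!
Upper bound for `∑_{a ≤ n} z^{ω(a)} / φ(a)`.
-/

set_option autoImplicit false

namespace Pool.Agent.Lib.MP_05805c_nt

open Real Finset

/-- `z^{ω(a)} / φ(a)` -/
noncomputable def wphi (z : ℝ) (a : ℕ) : ℝ := z ^ a.primeFactors.card / (Nat.totient a : ℝ)

lemma wphi_one (z : ℝ) : wphi z 1 = 1 := by simp [wphi]

lemma wphi_nonneg {z : ℝ} (hz : 0 ≤ z) (a : ℕ) : 0 ≤ wphi z a := by
  unfold wphi; positivity

lemma wphi_mul (z : ℝ) {m n : ℕ} (h : m.Coprime n) : wphi z (m * n) = wphi z m * wphi z n := by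
  unfold wphi
  rw [h.primeFactors_mul, Nat.totient_mul h,
    Finset.card_union_of_disjoint h.disjoint_primeFactors, pow_add]
  push_cast
  ring

lemma wphi_prime_pow (z : ℝ) {p : ℕ} (hp : p.Prime) (k : ℕ) :
    wphi z (p ^ (k + 1)) = z / ((p : ℝ) - 1) * (1 / (p : ℝ)) ^ k := by
  unfold wphi
  rw [Nat.primeFactors_prime_pow (Nat.succ_ne_zero k) hp,
    Nat.totient_prime_pow_succ hp, Finset.card_singleton, pow_one]
  have h1 : ((p - 1 : ℕ) : ℝ) = (p : ℝ) - 1 := by
    rw [Nat.cast_sub hp.one_lt.le]; simp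
  rw [Nat.cast_mul, h1, Nat.cast_pow]
  have h2 : (1 : ℝ) < p := by exact_mod_cast hp.one_lt
  have h3 : (p : ℝ) - 1 ≠ 0 := by linarith
  have h4 : (p : ℝ) ≠ 0 := by linarith
  rw [one_div, inv_pow]
  field_simp

lemma hasSum_wphi (z : ℝ) {p : ℕ} (hp : p.Prime) :
    HasSum (fun k : ℕ => wphi z (p ^ k)) (1 + z * (p / ((p : ℝ) - 1) ^ 2)) := by
  have h2 : (1 : ℝ) < p := by exact_mod_cast hp.one_lt
  have h3 : (p : ℝ) - 1 ≠ 0 := by linarith
  have h4 : (p : ℝ) ≠ 0 := by linarith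
  rw [← hasSum_nat_add_iff' 1]
  simp only [Finset.range_one, Finset.sum_singleton, pow_zero, wphi_one]
  have hg := (hasSum_geometric_of_lt_one (r := 1 / (p : ℝ)) (by positivity)
    (by rw [div_lt_one (by linarith)]; exact h2)).mul_left (z / ((p : ℝ) - 1))
  have : z / ((p : ℝ) - 1) * (1 - 1 / (p : ℝ))⁻¹ = 1 + z * (p / ((p : ℝ) - 1) ^ 2) - 1 := by
    have : (1 : ℝ) - 1 / p = (p - 1) / p := by field_simp
    rw [this]
    field_simp
    ring
  rw [← this]
  refine hg.congr_fun ?_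
  intro k
  rw [wphi_prime_pow z hp k]

lemma sum_inv_sq_le (n : ℕ) : ∑ m ∈ Finset.Icc 1 n, 1 / (m : ℝ) ^ 2 ≤ 2 := by
  have h : ∀ n : ℕ, 1 ≤ n → ∑ m ∈ Finset.Icc 1 n, 1 / (m : ℝ) ^ 2 ≤ 2 - 1 / (n : ℝ) := by
    intro n hn
    induction n, hn using Nat.le_induction with
    | base => norm_num
    | succ n hn ih =>
      rw [Finset.sum_Icc_succ_top (by omega)]
      have hn0 : (0 : ℝ) < n := by exact_mod_cast (by omega : 0 < n)
      have : 1 / ((n + 1 : ℕ) : ℝ) ^ 2 ≤ 1 / (n : ℝ) - 1 / ((n + 1 : ℕ) : ℝ) := by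
        push_cast
        rw [div_sub_div _ _ hn0.ne' (by positivity), div_le_div_iff₀ (by positivity) (by positivity)]
        nlinarith
      linarith
  rcases Nat.eq_zero_or_pos n with rfl | hn
  · simp
  · have := h n hn
    have h2 : 0 ≤ 1 / (n : ℝ) := by positivity
    linarith

lemma sum_div_sq_le (n : ℕ) :
    ∑ q ∈ primesTo n, (q : ℝ) / ((q : ℝ) - 1) ^ 2 ≤ Smert n + 4 := by
  have h1 : ∀ q ∈ primesTo n, (q : ℝ) / ((q : ℝ) - 1) ^ 2 ≤ 1 / q + 2 * (1 / ((q : ℝ) - 1) ^ 2) := by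
    intro q hq
    rw [mem_primesTo] at hq
    have h2 : (1 : ℝ) < q := by exact_mod_cast hq.2.one_lt
    have h3 : (0 : ℝ) < (q : ℝ) - 1 := by linarith
    have h4 : (0 : ℝ) < q := by linarith
    have : 1 / (q : ℝ) + 2 * (1 / ((q : ℝ) - 1) ^ 2) - (q : ℝ) / ((q : ℝ) - 1) ^ 2 =
        1 / (q * ((q : ℝ) - 1) ^ 2) := by
      field_simp
      ring
    have h5 : 0 ≤ 1 / (q * ((q : ℝ) - 1) ^ 2) := by positivity
    linarith
  refine (Finset.sum_le_sum h1).trans ?_
  rw [Finset.sum_add_distrib, ← Finset.mul_sum]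
  have h6 : ∑ q ∈ primesTo n, 1 / ((q : ℝ) - 1) ^ 2 ≤ 2 := by
    refine le_trans ?_ (sum_inv_sq_le n)
    have h7 : ∑ q ∈ primesTo n, 1 / ((q : ℝ) - 1) ^ 2 =
        ∑ m ∈ (primesTo n).image (fun q : ℕ => q - 1), 1 / (m : ℝ) ^ 2 := by
      rw [Finset.sum_image]
      · apply Finset.sum_congr rfl
        intro q hq
        rw [mem_primesTo] at hq
        rw [Nat.cast_sub hq.2.one_lt.le]; simp
      · intro a ha b hb hab
        have ha' := (mem_primesTo.mp ha).2.one_lt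
        have hb' := (mem_primesTo.mp hb).2.one_lt
        simp only at hab
        omega
    rw [h7]
    apply Finset.sum_le_sum_of_subset_of_nonneg
    · intro m hm
      rw [Finset.mem_image] at hm
      obtain ⟨q, hq, rfl⟩ := hm
      rw [mem_primesTo] at hq
      have := hq.2.one_lt
      rw [Finset.mem_Icc]; omega
    · intros; positivity
  unfold Smert
  linarith

/-- the Euler product bound -/
theorem sum_wphi_le {z : ℝ} (hz : 0 ≤ z) (n : ℕ) (hn : 2 ≤ n) :
    ∑ a ∈ Finset.Icc 1 n, wphi z a ≤ Real.exp (z * (Real.log (Real.log n) + 8)) := by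
  have hsum : ∀ {p : ℕ}, p.Prime → Summable (fun k : ℕ => ‖wphi z (p ^ k)‖) := by
    intro p hp
    have := (hasSum_wphi z hp).summable
    refine this.congr ?_
    intro k
    rw [Real.norm_of_nonneg (wphi_nonneg hz _)]
  have hE := EulerProduct.summable_and_hasSum_factoredNumbers_prod_filter_prime_tsum
    (f := wphi z) (wphi_one z) (fun {m n} h => wphi_mul z h) hsum (primesTo n)
  have hmem : ∀ a ∈ Finset.Icc 1 n, a ∈ Nat.factoredNumbers (primesTo n) := by
    intro a ha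
    rw [Finset.mem_Icc] at ha
    rw [Nat.mem_factoredNumbers']
    intro p hp hpa
    rw [mem_primesTo]
    exact ⟨(Nat.le_of_dvd (by omega) hpa).trans ha.2, hp⟩
  have h1 : ∑ a ∈ Finset.Icc 1 n, wphi z a ≤ ∏ p ∈ primesTo n with p.Prime, ∑' k : ℕ, wphi z (p ^ k) := by
    rw [← hE.2.tsum_eq]
    have h2 : ∑ a ∈ Finset.Icc 1 n, wphi z a =
        ∑ a ∈ (Finset.Icc 1 n).attach.map
          ⟨fun a => (⟨a.1, hmem a.1 a.2⟩ : Nat.factoredNumbers (primesTo n)), by
            intro a b hab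
            simp only [Subtype.mk.injEq] at hab
            exact Subtype.ext hab⟩, wphi z (a : ℕ) := by
      rw [Finset.sum_map]
      simp only [Function.Embedding.coeFn_mk]
      rw [Finset.sum_attach (Finset.Icc 1 n) (fun a => wphi z a)]
    rw [h2]
    exact hE.2.summable.sum_le_tsum _ (fun a _ => wphi_nonneg hz _)
  refine h1.trans ?_
  have h3 : (primesTo n).filter Nat.Prime = primesTo n := by
    apply Finset.filter_true_of_mem
    intro q hq; exact (mem_primesTo.mp hq).2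
  rw [h3]
  have h4 : ∏ p ∈ primesTo n, ∑' k : ℕ, wphi z (p ^ k) ≤
      ∏ p ∈ primesTo n, Real.exp (z * ((p : ℝ) / ((p : ℝ) - 1) ^ 2)) := by
    apply Finset.prod_le_prod
    · intro p _
      exact tsum_nonneg (fun k => wphi_nonneg hz _)
    · intro p hp
      rw [(hasSum_wphi z (mem_primesTo.mp hp).2).tsum_eq]
      have := Real.add_one_le_exp (z * ((p : ℝ) / ((p : ℝ) - 1) ^ 2))
      linarith
  refine h4.trans ?_
  rw [← Real.exp_sum, ← Finset.mul_sum]
  apply Real.exp_le_exp.mpr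
  apply mul_le_mul_of_nonneg_left _ hz
  have h5 := sum_div_sq_le n
  have h6 := Smert_le n hn
  linarith

end Pool.Agent.Lib.MP_05805c_nt
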