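import Mathlib
import Pool.Agent.Lib.MP_05805c_nt.OmegaSum
import Pool.Agent.Lib.MP_05805c_nt.LinSieve

/-!
The number of primes `p ≤ n` for which `p - 1` has few prime factors.
-/

set_option autoImplicit false

namespace Pool.Agent.Lib.MP_05805c_nt

open Real Finset

/-- a number larger than `Y^ω(m)` has an exact prime power divisor `≥ Y` -/
lemma exists_prime_power_ge {m : ℕ} (hm : m ≠ 0) {Y : ℝ} (hY : 0 < Y)
    (h : Y ^ m.primeFactors.card < m) :
    ∃ q ∈ m.primeFactors, Y ≤ (q : ℝ) ^ m.factorization q := by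
  by_contra hcon
  push Not at hcon
  have h1 : (m : ℝ) = ∏ q ∈ m.primeFactors, (q : ℝ) ^ m.factorization q := by
    conv_lhs => rw [← Nat.prod_factorization_pow_eq_self hm]
    rw [Finsupp.prod, Nat.support_factorization]
    push_cast
    rfl
  have h2 : ∏ q ∈ m.primeFactors, (q : ℝ) ^ m.factorization q ≤ ∏ _q ∈ m.primeFactors, Y := by
    apply Finset.prod_le_prod
    · intro q _; positivity
    · intro q hq; exact (hcon q hq).le
  rw [Finset.prod_const, ← h1] at h2
  linarith

lemma sum_inv_sq_tail (S n : ℕ) (hS : 2 ≤ S) :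
    ∑ s ∈ Finset.Icc S n, 1 / (s : ℝ) ^ 2 ≤ 1 / ((S : ℝ) - 1) := by
  have hS' : (2 : ℝ) ≤ S := by exact_mod_cast hS
  rcases lt_or_ge n S with h | h
  · rw [Finset.Icc_eq_empty (by omega), Finset.sum_empty]
    have : 0 < (S : ℝ) - 1 := by linarith
    positivity
  · have key : ∀ n : ℕ, S ≤ n → ∑ s ∈ Finset.Icc S n, 1 / (s : ℝ) ^ 2 ≤
        1 / ((S : ℝ) - 1) - 1 / (n : ℝ) := by
      intro n hn
      induction n, hn using Nat.le_induction with
      | base =>
        rw [Finset.Icc_self, Finset.sum_singleton]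
        have h1 : 0 < (S : ℝ) - 1 := by linarith
        have h2 : (0 : ℝ) < S := by linarith
        rw [div_sub_div _ _ h1.ne' h2.ne', div_le_div_iff₀ (by positivity) (by positivity)]
        nlinarith
      | succ n hn ih =>
        rw [Finset.sum_Icc_succ_top (by omega)]
        have hn0 : (0 : ℝ) < n := by exact_mod_cast (by omega : 0 < n)
        have : 1 / ((n + 1 : ℕ) : ℝ) ^ 2 ≤ 1 / (n : ℝ) - 1 / ((n + 1 : ℕ) : ℝ) := by
          push_cast
          rw [div_sub_div _ _ hn0.ne' (by positivity),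
            div_le_div_iff₀ (by positivity) (by positivity)]
          nlinarith
        linarith
    have h1 := key n h
    have h2 : (0 : ℝ) ≤ 1 / (n : ℝ) := by positivity
    linarith

/-- the primes `p ≤ n` such that `p - 1` has few prime factors -/
noncomputable def fewPrimes (A : ℝ) (n : ℕ) : Finset ℕ :=
  (Finset.Icc 1 n).filter (fun p => p.Prime ∧ (3 : ℝ) ^ (p - 1).primeFactors.card ≤ A * Real.log p)

/-- first piece: multiples of large squares, shifted -/
noncomputable def sqPiece (S n : ℕ) : Finset ℕ :=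
  (Finset.Icc S n).biUnion
    (fun s => ((Finset.Icc 1 n).filter (fun m => s ^ 2 ∣ m)).image (fun m => m + 1))

open Classical in
/-- the set of cofactors -/
noncomputable def cofs (A Y : ℝ) (n : ℕ) : Finset ℕ :=
  (Finset.Icc 1 n).filter (fun a => 2 ∣ a ∧ (3 : ℝ) ^ a.primeFactors.card ≤ A * Real.log n ∧
    Y ≤ ((n / a : ℕ) : ℝ))

/-- second piece -/
noncomputable def prPiece (A Y : ℝ) (n : ℕ) : Finset ℕ :=
  (cofs A Y n).biUnion
    (fun a => ((Finset.Icc 1 (n / a)).filter (fun q => q.Prime ∧ (a * q + 1).Prime)).image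
      (fun q => a * q + 1))

lemma card_sqPiece_le (S n : ℕ) (hS : 2 ≤ S) :
    ((sqPiece S n).card : ℝ) ≤ n / ((S : ℝ) - 1) := by
  have h1 : (sqPiece S n).card ≤ ∑ s ∈ Finset.Icc S n, n / s ^ 2 := by
    unfold sqPiece
    refine Finset.card_biUnion_le.trans ?_
    apply Finset.sum_le_sum
    intro s _
    refine Finset.card_image_le.trans ?_
    rw [card_multiples_Icc]
  have h2 : ((sqPiece S n).card : ℝ) ≤ ∑ s ∈ Finset.Icc S n, ((n / s ^ 2 : ℕ) : ℝ) := by
    exact_mod_cast h1
  refine h2.trans ?_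
  have h3 : ∑ s ∈ Finset.Icc S n, ((n / s ^ 2 : ℕ) : ℝ) ≤
      ∑ s ∈ Finset.Icc S n, (n : ℝ) * (1 / (s : ℝ) ^ 2) := by
    apply Finset.sum_le_sum
    intro s _
    have := Nat.cast_div_le (α := ℝ) (m := n) (n := s ^ 2)
    push_cast at this
    rw [mul_one_div]
    exact this
  refine h3.trans ?_
  rw [← Finset.mul_sum]
  have h4 := mul_le_mul_of_nonneg_left (sum_inv_sq_tail S n hS) (Nat.cast_nonneg (α := ℝ) n)
  rw [mul_one_div] at h4
  exact h4

/-- `3^η = 11/10` -/
noncomputable def eta : ℝ := Real.log (11 / 10) / Real.log 3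

lemma three_rpow_eta : (3 : ℝ) ^ eta = 11 / 10 := by
  unfold eta
  have h3 : Real.log 3 ≠ 0 := (Real.log_pos (by norm_num)).ne'
  rw [Real.rpow_def_of_pos (by norm_num), mul_div_cancel₀ _ h3, Real.exp_log (by norm_num)]

lemma eta_pos : 0 < eta := by
  unfold eta
  exact div_pos (Real.log_pos (by norm_num)) (Real.log_pos (by norm_num))

lemma eta_le : eta ≤ 2 / 23 := by
  unfold eta
  have h3 : 0 < Real.log 3 := Real.log_pos (by norm_num)
  rw [div_le_div_iff₀ h3 (by norm_num)]
  have h : Real.log ((11 / 10 : ℝ) ^ 23) ≤ Real.log ((3 : ℝ) ^ 2) := by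
    apply Real.log_le_log (by positivity)
    norm_num
  rw [Real.log_pow, Real.log_pow] at h
  push_cast at h
  linarith

/-- Rankin's trick -/
lemma rankin {B : ℝ} {w : ℕ} (h : (3 : ℝ) ^ w ≤ B) : 1 ≤ B ^ eta * (10 / 11 : ℝ) ^ w := by
  have h3 : (0 : ℝ) < (3 : ℝ) ^ w := by positivity
  have h1 : ((3 : ℝ) ^ w) ^ eta ≤ B ^ eta := Real.rpow_le_rpow h3.le h eta_pos.le
  have h2 : ((3 : ℝ) ^ w) ^ eta = (11 / 10 : ℝ) ^ w := by
    rw [← Real.rpow_natCast, ← Real.rpow_mul (by norm_num), mul_comm, Real.rpow_mul (by norm_num),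
      three_rpow_eta, Real.rpow_natCast]
  rw [h2] at h1
  have h4 : (11 / 10 : ℝ) ^ w * (10 / 11 : ℝ) ^ w = 1 := by
    rw [← mul_pow]; norm_num
  calc (1 : ℝ) = (11 / 10 : ℝ) ^ w * (10 / 11 : ℝ) ^ w := h4.symm
    _ ≤ B ^ eta * (10 / 11 : ℝ) ^ w := mul_le_mul_of_nonneg_right h1 (by positivity)

lemma sum_cofs_le (A Y : ℝ) (n : ℕ) (hn : 3 ≤ n) (hA : 0 < A) :
    ∑ a ∈ cofs A Y n, 1 / (Nat.totient a : ℝ) ≤
      (A * Real.log n) ^ eta * (Real.exp 8 * (Real.log n) ^ (10 / 11 : ℝ)) := by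
  have hl : 0 < Real.log n := Real.log_pos (by exact_mod_cast (by omega : 1 < n))
  have hAL : 0 ≤ (A * Real.log n) ^ eta := by positivity
  have h1 : ∑ a ∈ cofs A Y n, 1 / (Nat.totient a : ℝ) ≤
      ∑ a ∈ cofs A Y n, (A * Real.log n) ^ eta * wphi (10 / 11) a := by
    apply Finset.sum_le_sum
    intro a ha
    unfold cofs at ha
    rw [Finset.mem_filter] at ha
    have h2 := rankin ha.2.2.1
    unfold wphi
    have h3 : (0 : ℝ) ≤ 1 / (Nat.totient a : ℝ) := by positivity
    calc 1 / (Nat.totient a : ℝ) = 1 * (1 / (Nat.totient a : ℝ)) := by ring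
      _ ≤ ((A * Real.log n) ^ eta * (10 / 11 : ℝ) ^ a.primeFactors.card) *
          (1 / (Nat.totient a : ℝ)) := mul_le_mul_of_nonneg_right h2 h3
      _ = _ := by ring
  refine h1.trans ?_
  rw [← Finset.mul_sum]
  apply mul_le_mul_of_nonneg_left _ hAL
  have h4 : ∑ a ∈ cofs A Y n, wphi (10 / 11) a ≤ ∑ a ∈ Finset.Icc 1 n, wphi (10 / 11) a := by
    apply Finset.sum_le_sum_of_subset_of_nonneg
    · exact Finset.filter_subset _ _
    · intro a _ _; exact wphi_nonneg (by norm_num) a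
  refine h4.trans ((sum_wphi_le (by norm_num) n (by omega)).trans ?_)
  rw [Real.rpow_def_of_pos hl, ← Real.exp_add]
  apply Real.exp_le_exp.mpr
  linarith

lemma card_prPiece_le (A Y : ℝ) (n : ℕ) (hn : 3 ≤ n) (hA : 0 < A) (hY : 2 < Y) :
    ((prPiece A Y n).card : ℝ) ≤
      300 * n / (Real.log Y) ^ 2 *
        ((A * Real.log n) ^ eta * (Real.exp 8 * (Real.log n) ^ (10 / 11 : ℝ))) := by
  have hlY : 0 < Real.log Y := Real.log_pos (by linarith)
  have h1 : ((prPiece A Y n).card : ℝ) ≤ ∑ a ∈ cofs A Y n,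
      (((Finset.Icc 1 (n / a)).filter (fun q => q.Prime ∧ (a * q + 1).Prime)).card : ℝ) := by
    have h2 : (prPiece A Y n).card ≤ ∑ a ∈ cofs A Y n,
      ((Finset.Icc 1 (n / a)).filter (fun q => q.Prime ∧ (a * q + 1).Prime)).card := by
      unfold prPiece
      refine Finset.card_biUnion_le.trans ?_
      apply Finset.sum_le_sum
      intro a _
      exact Finset.card_image_le
    exact_mod_cast h2
  refine h1.trans ?_
  have h3 : ∀ a ∈ cofs A Y n,
      (((Finset.Icc 1 (n / a)).filter (fun q => q.Prime ∧ (a * q + 1).Prime)).card : ℝ) ≤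
      300 * n / (Real.log Y) ^ 2 * (1 / (Nat.totient a : ℝ)) := by
    intro a ha
    unfold cofs at ha
    rw [Finset.mem_filter, Finset.mem_Icc] at ha
    obtain ⟨⟨ha1, ha2⟩, ha3, ha4, ha5⟩ := ha
    have ha0 : (0 : ℝ) < a := by exact_mod_cast (by omega : 0 < a)
    have hN : 2 ≤ n / a := by
      have : (2 : ℝ) < ((n / a : ℕ) : ℝ) := by linarith
      exact_mod_cast this.le
    have h4 := LinSieve.lin_sieve (n / a) a hN ha3 (by omega)
    refine h4.trans ?_
    have hlN : Real.log Y ≤ Real.log ((n / a : ℕ) : ℝ) := Real.log_le_log (by linarith) ha5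
    have h5 : ((n / a : ℕ) : ℝ) ≤ n / a := Nat.cast_div_le
    have hphi : (0 : ℝ) < (Nat.totient a : ℝ) := by
      exact_mod_cast Nat.totient_pos.mpr (by omega)
    calc 300 * ((a : ℝ) / (Nat.totient a : ℝ)) * ((n / a : ℕ) : ℝ) / (Real.log ((n / a : ℕ) : ℝ)) ^ 2
        ≤ 300 * ((a : ℝ) / (Nat.totient a : ℝ)) * (n / a) / (Real.log Y) ^ 2 := by
          apply div_le_div₀ (by positivity) _ (by positivity) (by gcongr)
          exact mul_le_mul_of_nonneg_left h5 (by positivity)
      _ = _ := by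
          field_simp
  refine (Finset.sum_le_sum h3).trans ?_
  rw [← Finset.mul_sum]
  exact mul_le_mul_of_nonneg_left (sum_cofs_le A Y n hn hA) (by positivity)

/-- the decomposition of the exceptional set -/
lemma fewPrimes_subset (A K Y : ℝ) (n S : ℕ) (hn : 17 ≤ n) (hA : 0 < A) (hK : 0 < K)
    (hY : Y = Real.exp (Real.log n / (4 * K))) (hY2 : 2 < Y)
    (hS : ((S : ℝ) - 1) ^ 3 < Y) (hS2 : 2 ≤ S)
    (hAK : ∀ w : ℕ, (3 : ℝ) ^ w ≤ A * Real.log n → (w : ℝ) ≤ K) :
    fewPrimes A n ⊆ Finset.Icc 1 (Nat.sqrt n) ∪ sqPiece S n ∪ prPiece A Y n := by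
  intro p hp
  unfold fewPrimes at hp
  rw [Finset.mem_filter, Finset.mem_Icc] at hp
  obtain ⟨⟨hp1, hpn⟩, hpp, hp3⟩ := hp
  rw [Finset.mem_union, Finset.mem_union]
  rcases le_or_gt p (Nat.sqrt n) with hsq | hsq
  · left; left; rw [Finset.mem_Icc]; exact ⟨hp1, hsq⟩
  have hnr : (17 : ℝ) ≤ n := by exact_mod_cast hn
  have hn0 : (0 : ℝ) < n := by linarith
  have hpr : (0 : ℝ) < p := by exact_mod_cast hpp.pos
  have hln : 0 < Real.log n := Real.log_pos (by linarith)
  have hlogp : Real.log p ≤ Real.log n := Real.log_le_log hpr (by exact_mod_cast hpn)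
  have hw : (3 : ℝ) ^ (p - 1).primeFactors.card ≤ A * Real.log n :=
    hp3.trans (mul_le_mul_of_nonneg_left hlogp hA.le)
  have hwK := hAK _ hw
  -- `p - 1 > n^{1/4}`
  have hp_sq : n < p * p := Nat.sqrt_lt.mp hsq
  have hp5 : 5 ≤ p := by nlinarith
  have hm0 : p - 1 ≠ 0 := by omega
  have hYw : Y ^ (p - 1).primeFactors.card < ((p - 1 : ℕ) : ℝ) := by
    have h1 : Y ^ (p - 1).primeFactors.card ≤ Real.exp (Real.log n / 4) := by
      rw [hY, ← Real.exp_nat_mul]
      apply Real.exp_le_exp.mpr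
      calc ((p - 1).primeFactors.card : ℝ) * (Real.log n / (4 * K))
          ≤ K * (Real.log n / (4 * K)) := mul_le_mul_of_nonneg_right hwK (by positivity)
        _ = Real.log n / 4 := by field_simp
    refine lt_of_le_of_lt h1 ?_
    set t := Real.exp (Real.log n / 4) with ht
    have ht4 : t ^ 4 = n := by
      rw [ht, ← Real.exp_nat_mul]
      push_cast
      rw [show (4 : ℝ) * (Real.log n / 4) = Real.log n by ring, Real.exp_log hn0]
    have ht0 : 0 < t := Real.exp_pos _
    have ht2 : 2 < t := by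
      by_contra hcon
      push Not at hcon
      have : t ^ 4 ≤ 2 ^ 4 := pow_le_pow_left₀ ht0.le hcon 4
      rw [ht4] at this
      linarith
    have hpsq : (t ^ 2) ^ 2 < (p : ℝ) ^ 2 := by
      have : (n : ℝ) < p * p := by exact_mod_cast hp_sq
      nlinarith
    have hpt : t ^ 2 < p := lt_of_pow_lt_pow_left₀ 2 hpr.le hpsq
    rw [Nat.cast_sub hpp.one_lt.le]
    push_cast
    nlinarith
  obtain ⟨q, hq, hqY⟩ := exists_prime_power_ge hm0 (by linarith) hYw
  have hqp : q.Prime := Nat.prime_of_mem_primeFactors hq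
  have hqd : q ∣ p - 1 := Nat.dvd_of_mem_primeFactors hq
  have he1 : 1 ≤ (p - 1).factorization q := (Nat.Prime.dvd_iff_one_le_factorization hqp hm0).mp hqd
  rcases Nat.lt_or_ge 1 ((p - 1).factorization q) with he | he
  · -- square case
    left; right
    set e := (p - 1).factorization q with he_def
    have hdvd : (q ^ (e / 2)) ^ 2 ∣ p - 1 := by
      rw [← pow_mul]
      exact (pow_dvd_pow q (by omega)).trans (Nat.ordProj_dvd (p - 1) q)
    have hs3 : Y ≤ ((q ^ (e / 2) : ℕ) : ℝ) ^ 3 := by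
      refine hqY.trans ?_
      push_cast
      rw [← pow_mul]
      exact pow_le_pow_right₀ (by exact_mod_cast hqp.one_lt.le) (by omega)
    have hSs : S ≤ q ^ (e / 2) := by
      by_contra hcon
      push Not at hcon
      have h1 : ((q ^ (e / 2) : ℕ) : ℝ) ≤ (S : ℝ) - 1 := by
        have : q ^ (e / 2) + 1 ≤ S := hcon
        have : ((q ^ (e / 2) + 1 : ℕ) : ℝ) ≤ S := by exact_mod_cast this
        push_cast at this ⊢
        linarith
      have h2 := pow_le_pow_left₀ (Nat.cast_nonneg (q ^ (e / 2))) h1 3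
      linarith
    unfold sqPiece
    rw [Finset.mem_biUnion]
    refine ⟨q ^ (e / 2), ?_, ?_⟩
    · rw [Finset.mem_Icc]
      refine ⟨hSs, ?_⟩
      have h1 : q ^ (e / 2) ≤ (q ^ (e / 2)) ^ 2 := Nat.le_self_pow (by norm_num) _
      have h2 := Nat.le_of_dvd (by omega) hdvd
      omega
    · rw [Finset.mem_image]
      refine ⟨p - 1, ?_, by omega⟩
      rw [Finset.mem_filter, Finset.mem_Icc]
      exact ⟨⟨by omega, by omega⟩, hdvd⟩
  · -- prime case
    right
    have he' : (p - 1).factorization q = 1 := by omega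
    rw [he', pow_one] at hqY
    obtain ⟨a, ha⟩ := hqd
    have ha0 : a ≠ 0 := by rintro rfl; simp at ha; omega
    have hq2 : 2 < q := by
      have : (2 : ℝ) < q := by linarith
      exact_mod_cast this
    have h2p : 2 ∣ p - 1 := by
      have := hpp.odd_of_ne_two (by omega)
      obtain ⟨k, hk⟩ := this
      exact ⟨k, by omega⟩
    have h2a : 2 ∣ a := by
      rw [ha] at h2p
      rcases (Nat.Prime.dvd_mul Nat.prime_two).mp h2p with h | h
      · exact absurd ((Nat.prime_dvd_prime_iff_eq Nat.prime_two hqp).mp h) (by omega)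
      · exact h
    have haq : p = a * q + 1 := by
      have : p - 1 = a * q := by rw [ha]; ring
      omega
    have hqna : q ≤ n / a := by
      rw [Nat.le_div_iff_mul_le (by omega)]
      have : q * a = p - 1 := ha.symm
      omega
    unfold prPiece
    rw [Finset.mem_biUnion]
    refine ⟨a, ?_, ?_⟩
    · unfold cofs
      rw [Finset.mem_filter, Finset.mem_Icc]
      refine ⟨⟨by omega, ?_⟩, h2a, ?_, ?_⟩
      · have : a ≤ q * a := Nat.le_mul_of_pos_left a hqp.pos
        omega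
      · refine le_trans ?_ hw
        apply pow_le_pow_right₀ (by norm_num)
        apply Finset.card_le_card
        apply Nat.primeFactors_mono _ hm0
        rw [ha]
        exact Dvd.intro_left q rfl
      · refine hqY.trans ?_
        exact_mod_cast hqna
    · rw [Finset.mem_image]
      refine ⟨q, ?_, haq.symm⟩
      rw [Finset.mem_filter, Finset.mem_Icc]
      refine ⟨⟨hqp.one_lt.le, hqna⟩, hqp, ?_⟩
      rw [← haq]
      exact hpp

end Pool.Agent.Lib.MP_05805c_nt
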