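import Mathlib
import Pool.Agent.Lib.MP_05805c_nt.OmegaCount

/-!
For almost all primes `p`, `3^ω(p-1) > A log p`.
-/

set_option autoImplicit false

namespace Pool.Agent.Lib.MP_05805c_nt

open Real Finset Filter Topology

lemma ev_log_le (A : ℝ) (hA : 0 < A) :
    ∀ᶠ x : ℝ in atTop, Real.log (A * x) / Real.log 3 ≤ x ^ (1 / 1000 : ℝ) := by
  have h3 : 0 < Real.log 3 := Real.log_pos (by norm_num)
  have h1 : (fun x : ℝ => Real.log A + Real.log x) =o[atTop] fun x : ℝ => x ^ (1 / 1000 : ℝ) := by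
    apply Asymptotics.IsLittleO.add
    · apply Asymptotics.isLittleO_const_left.mpr
      right
      exact tendsto_norm_atTop_atTop.comp (tendsto_rpow_atTop (by norm_num))
    · exact isLittleO_log_rpow_atTop (by norm_num)
  have h2 := h1.bound h3
  filter_upwards [h2, eventually_gt_atTop 0] with x hx hx0
  rw [div_le_iff₀ h3, Real.log_mul hA.ne' hx0.ne']
  have h4 := Real.norm_of_nonneg (Real.rpow_nonneg hx0.le (1 / 1000))
  rw [h4] at hx
  calc Real.log A + Real.log x ≤ ‖Real.log A + Real.log x‖ := Real.le_norm_self _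
    _ ≤ Real.log 3 * x ^ (1 / 1000 : ℝ) := hx
    _ = _ := by ring

lemma ev_log_le2 : ∀ᶠ x : ℝ in atTop, 2 * Real.log x ≤ x ^ (999 / 1000 : ℝ) / 12 := by
  have h1 : (fun x : ℝ => Real.log x) =o[atTop] fun x : ℝ => x ^ (999 / 1000 : ℝ) :=
    isLittleO_log_rpow_atTop (by norm_num)
  have h2 := h1.bound (show (0 : ℝ) < 1 / 24 by norm_num)
  filter_upwards [h2, eventually_gt_atTop 0] with x hx hx0
  have h4 := Real.norm_of_nonneg (Real.rpow_nonneg hx0.le (999 / 1000))
  rw [h4] at hx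
  have := Real.le_norm_self (Real.log x)
  linarith

/-- the pointwise bound -/
lemma card_fewPrimes_le (A : ℝ) (hA : 0 < A) :
    ∃ C : ℝ, 0 < C ∧ ∀ᶠ n : ℕ in atTop,
      ((fewPrimes A n).card : ℝ) * Real.log n / n ≤
        Real.log n / Real.sqrt n + Real.log n / ((Real.log n) ^ 2 - 1) +
          C * (Real.log n) ^ (-(1 / 1000) : ℝ) := by
  refine ⟨300 * 16 * A ^ eta * Real.exp 8, by positivity, ?_⟩
  have hL : Tendsto (fun n : ℕ => Real.log (n : ℝ)) atTop atTop :=
    Real.tendsto_log_atTop.comp tendsto_natCast_atTop_atTop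
  filter_upwards [hL.eventually (ev_log_le A hA), hL.eventually ev_log_le2,
    hL.eventually_ge_atTop 100, eventually_ge_atTop 17] with n h1 h2 h3 h4
  set L := Real.log (n : ℝ) with hLdef
  have hL0 : 0 < L := by linarith
  have hn0 : (0 : ℝ) < n := by exact_mod_cast (by omega : 0 < n)
  set K := L ^ (1 / 1000 : ℝ) with hK
  have hK0 : 0 < K := by positivity
  set Y := Real.exp (L / (4 * K)) with hYdef
  have hLK : L / K = L ^ (999 / 1000 : ℝ) := by
    rw [hK]
    nth_rewrite 1 [← Real.rpow_one L]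
    rw [← Real.rpow_sub hL0]
    norm_num
  have hLK4 : L / (4 * K) = L ^ (999 / 1000 : ℝ) / 4 := by
    rw [← hLK]; field_simp
  -- cube root of Y
  set y := Real.exp (L ^ (999 / 1000 : ℝ) / 12) with hy
  have hy3 : y ^ 3 = Y := by
    rw [hy, hYdef, hLK4, ← Real.exp_nat_mul]
    congr 1
    push_cast
    ring
  have hyL : L ^ 2 ≤ y := by
    have : L ^ 2 = Real.exp (2 * Real.log L) := by
      rw [mul_comm, Real.exp_mul, Real.exp_log hL0]
      norm_cast
    rw [this]
    exact Real.exp_le_exp.mpr h2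
  have hy0 : 0 < y := Real.exp_pos _
  have hybig : 10000 ≤ y := by nlinarith
  set S := ⌈y⌉₊ with hS
  have hSy : y ≤ S := Nat.le_ceil y
  have hSy2 : (S : ℝ) < y + 1 := Nat.ceil_lt_add_one hy0.le
  have hS2 : 2 ≤ S := by
    have : (2 : ℝ) ≤ S := by linarith
    exact_mod_cast this
  have hY2 : 2 < Y := by
    rw [← hy3]
    nlinarith [sq_nonneg y]
  have hS3 : ((S : ℝ) - 1) ^ 3 < Y := by
    rw [← hy3]
    apply pow_lt_pow_left₀ (by linarith) (by linarith) (by norm_num)
  have hAK : ∀ w : ℕ, (3 : ℝ) ^ w ≤ A * Real.log n → (w : ℝ) ≤ K := by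
    intro w hw
    refine le_trans ?_ h1
    rw [le_div_iff₀ (Real.log_pos (by norm_num)), ← Real.log_pow]
    exact Real.log_le_log (by positivity) hw
  have hsub := fewPrimes_subset A K Y n S h4 hA hK0 rfl hY2 hS3 hS2 hAK
  have hcard : ((fewPrimes A n).card : ℝ) ≤ Nat.sqrt n + n / ((S : ℝ) - 1) +
      300 * n / (Real.log Y) ^ 2 * ((A * Real.log n) ^ eta *
        (Real.exp 8 * (Real.log n) ^ (10 / 11 : ℝ))) := by
    have e1 := Finset.card_le_card hsub
    have e2 := Finset.card_union_le (Finset.Icc 1 (Nat.sqrt n) ∪ sqPiece S n) (prPiece A Y n)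
    have e3 := Finset.card_union_le (Finset.Icc 1 (Nat.sqrt n)) (sqPiece S n)
    have e4 := card_sqPiece_le S n hS2
    have e5 := card_prPiece_le A Y n (by omega) hA hY2
    rw [Nat.card_Icc] at e3
    have e6 : (fewPrimes A n).card ≤ Nat.sqrt n + (sqPiece S n).card + (prPiece A Y n).card := by
      omega
    have e7 : ((fewPrimes A n).card : ℝ) ≤ Nat.sqrt n + (sqPiece S n).card + (prPiece A Y n).card := by
      exact_mod_cast e6
    linarith
  -- now divide by `n / L`
  have hs0 : 0 < Real.sqrt n := Real.sqrt_pos.mpr hn0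
  have hsq : Real.sqrt n * Real.sqrt n = n := Real.mul_self_sqrt hn0.le
  have t1 : (Nat.sqrt n : ℝ) * L / n ≤ L / Real.sqrt n := by
    have : (Nat.sqrt n : ℝ) ≤ Real.sqrt n := Real.nat_sqrt_le_real_sqrt
    rw [div_le_div_iff₀ hn0 hs0]
    have h5 : (Nat.sqrt n : ℝ) * Real.sqrt n ≤ n := by nlinarith
    nlinarith
  have hL2 : 0 < L ^ 2 - 1 := by nlinarith
  have t2 : (n / ((S : ℝ) - 1)) * L / n ≤ L / (L ^ 2 - 1) := by
    have : (n / ((S : ℝ) - 1)) * L / n = L / ((S : ℝ) - 1) := by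
      field_simp
    rw [this]
    apply div_le_div_of_nonneg_left hL0.le hL2
    linarith
  have hlY : Real.log Y = L ^ (999 / 1000 : ℝ) / 4 := by
    rw [hYdef, Real.log_exp, hLK4]
  have t3 : (300 * n / (Real.log Y) ^ 2 * ((A * L) ^ eta *
        (Real.exp 8 * L ^ (10 / 11 : ℝ)))) * L / n ≤
        300 * 16 * A ^ eta * Real.exp 8 * L ^ (-(1 / 1000) : ℝ) := by
    rw [hlY, Real.mul_rpow hA.le hL0.le]
    have hP : 0 < L ^ (999 / 1000 : ℝ) := by positivity
    have e1 : (300 * n / (L ^ (999 / 1000 : ℝ) / 4) ^ 2 * (A ^ eta * L ^ eta *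
        (Real.exp 8 * L ^ (10 / 11 : ℝ)))) * L / n =
        300 * 16 * A ^ eta * Real.exp 8 *
          (L ^ eta * L ^ (10 / 11 : ℝ) * L / (L ^ (999 / 1000 : ℝ)) ^ 2) := by
      field_simp
      norm_num
    rw [e1]
    apply mul_le_mul_of_nonneg_left _ (by positivity)
    have e2 : L ^ eta * L ^ (10 / 11 : ℝ) * L / (L ^ (999 / 1000 : ℝ)) ^ 2 =
        L ^ (eta + 10 / 11 + 1 - 999 / 500) := by
      have e3 : (L ^ (999 / 1000 : ℝ)) ^ 2 = L ^ (999 / 500 : ℝ) := by
        rw [← Real.rpow_natCast, ← Real.rpow_mul hL0.le]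
        norm_num
      rw [e3]
      nth_rewrite 3 [← Real.rpow_one L]
      rw [← Real.rpow_add hL0, ← Real.rpow_add hL0, ← Real.rpow_sub hL0]
    rw [e2]
    apply Real.rpow_le_rpow_of_exponent_le (by linarith)
    have := eta_le
    norm_num
    linarith
  calc ((fewPrimes A n).card : ℝ) * L / n
      ≤ (Nat.sqrt n + n / ((S : ℝ) - 1) +
      300 * n / (Real.log Y) ^ 2 * ((A * L) ^ eta *
        (Real.exp 8 * L ^ (10 / 11 : ℝ)))) * L / n := by
        apply div_le_div_of_nonneg_right _ hn0.le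
        exact mul_le_mul_of_nonneg_right hcard hL0.le
    _ = (Nat.sqrt n : ℝ) * L / n + (n / ((S : ℝ) - 1)) * L / n +
        (300 * n / (Real.log Y) ^ 2 * ((A * L) ^ eta *
        (Real.exp 8 * L ^ (10 / 11 : ℝ)))) * L / n := by ring
    _ ≤ _ := by linarith

/-- **Almost all primes `p` satisfy `3^ω(p-1) > A log p`** (upper bound form). -/
theorem tendsto_fewPrimes (A : ℝ) (hA : 0 < A) :
    Tendsto (fun n : ℕ => ((fewPrimes A n).card : ℝ) * Real.log n / n) atTop (𝓝 0) := by
  obtain ⟨C, hC, hev⟩ := card_fewPrimes_le A hA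
  have hL : Tendsto (fun n : ℕ => Real.log (n : ℝ)) atTop atTop :=
    Real.tendsto_log_atTop.comp tendsto_natCast_atTop_atTop
  have hzero : Tendsto (fun n : ℕ => Real.log n / Real.sqrt n + Real.log n / ((Real.log n) ^ 2 - 1) +
          C * (Real.log n) ^ (-(1 / 1000) : ℝ)) atTop (𝓝 0) := by
    have a1 : Tendsto (fun n : ℕ => Real.log (n : ℝ) / Real.sqrt n) atTop (𝓝 0) := by
      have h1 : Tendsto (fun x : ℝ => Real.log x / x ^ (1 / 2 : ℝ)) atTop (𝓝 0) :=
        (isLittleO_log_rpow_atTop (by norm_num)).tendsto_div_nhds_zero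
      have h2 := h1.comp tendsto_natCast_atTop_atTop (α := ℕ)
      refine h2.congr ?_
      intro n
      simp only [Function.comp_apply, Real.sqrt_eq_rpow]
    have a2 : Tendsto (fun n : ℕ => Real.log (n : ℝ) / ((Real.log (n : ℝ)) ^ 2 - 1)) atTop (𝓝 0) := by
      have h1 : Tendsto (fun x : ℝ => x / (x ^ 2 - 1)) atTop (𝓝 0) := by
        have h2 : Tendsto (fun x : ℝ => 2 / x) atTop (𝓝 0) := tendsto_const_nhds.div_atTop tendsto_id
        refine squeeze_zero' ?_ ?_ h2
        · filter_upwards [eventually_ge_atTop 2] with x hx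
          apply div_nonneg (by linarith) (by nlinarith)
        · filter_upwards [eventually_ge_atTop 2] with x hx
          rw [div_le_div_iff₀ (by nlinarith) (by linarith)]
          nlinarith
      exact h1.comp hL
    have a3 : Tendsto (fun n : ℕ => C * (Real.log (n : ℝ)) ^ (-(1 / 1000) : ℝ)) atTop (𝓝 0) := by
      have h1 := ((tendsto_rpow_neg_atTop (show (0 : ℝ) < 1 / 1000 by norm_num)).comp hL).const_mul C
      simpa using h1
    have := (a1.add a2).add a3
    simpa using this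
  refine squeeze_zero' ?_ hev hzero
  filter_upwards [eventually_ge_atTop 1] with n hn
  have : 0 ≤ Real.log (n : ℝ) := Real.log_natCast_nonneg n
  positivity

end Pool.Agent.Lib.MP_05805c_nt
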