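import Mathlib
import Pool.Agent.Lib.MP_05805c_nt.Comps2

/-!
The self-map of `ℙ^N(𝔽_p)` given by homogeneous polynomials, and the ratio of the
first two coordinates.
-/

set_option autoImplicit false

namespace Pool.Agent.Lib.MP_05805c_nt

open Function
open scoped LinearAlgebra.Projectivization

/-- the values at `v` of the reductions modulo `p` of the polynomials `F i` -/
noncomputable def evalMod {N : ℕ} (p : ℕ) (F : Fin (N + 1) → MvPolynomial (Fin (N + 1)) ℤ)
    (v : Fin (N + 1) → ZMod p) : Fin (N + 1) → ZMod p :=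
  fun i => MvPolynomial.aeval v (F i)

open Classical in
/-- the reduction modulo `p` of `[F 0 : … : F N]` as a self-map of `ℙ^N(𝔽_p)` -/
noncomputable def redMap {N : ℕ} (p : ℕ) [Fact p.Prime]
    (F : Fin (N + 1) → MvPolynomial (Fin (N + 1)) ℤ)
    (x : ℙ (ZMod p) (Fin (N + 1) → ZMod p)) : ℙ (ZMod p) (Fin (N + 1) → ZMod p) :=
  if h : evalMod p F x.rep ≠ 0 then Projectivization.mk (ZMod p) (evalMod p F x.rep) h else x

/-- no common zero of the reductions over the algebraic closure of `𝔽_p` -/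
def GoodReduction {N : ℕ} (p : ℕ) [Fact p.Prime]
    (F : Fin (N + 1) → MvPolynomial (Fin (N + 1)) ℤ) : Prop :=
  ∀ v : Fin (N + 1) → AlgebraicClosure (ZMod p),
    (∀ i, MvPolynomial.aeval v (F i) = 0) → v = 0

/-- the ratio of the first two coordinates -/
noncomputable def ratio {N : ℕ} {p : ℕ} [Fact p.Prime]
    (x : ℙ (ZMod p) (Fin (N + 1) → ZMod p)) : ZMod p := x.rep 1 / x.rep 0

section

variable {N : ℕ} {p : ℕ} [Fact p.Prime]

lemma rep_mk_zero_iff (v : Fin (N + 1) → ZMod p) (hv : v ≠ 0) (j : Fin (N + 1)) :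
    (Projectivization.mk (ZMod p) v hv).rep j = 0 ↔ v j = 0 := by
  obtain ⟨a, ha⟩ := Projectivization.exists_smul_eq_mk_rep (ZMod p) v hv
  rw [← ha]
  simp [Units.smul_def]

lemma ratio_mk (v : Fin (N + 1) → ZMod p) (hv : v ≠ 0) :
    ratio (Projectivization.mk (ZMod p) v hv) = v 1 / v 0 := by
  obtain ⟨a, ha⟩ := Projectivization.exists_smul_eq_mk_rep (ZMod p) v hv
  unfold ratio
  rw [← ha]
  simp only [Pi.smul_apply, Units.smul_def, smul_eq_mul]
  rw [mul_div_mul_left _ _ a.ne_zero]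

/-- points of the coordinate subspace `x_j = 0 (j > m)` with `x_0 ≠ 0` and ratio in `P` -/
def baseSet (N : ℕ) (p : ℕ) [Fact p.Prime] (m : ℕ) (P : Set (ZMod p)) :
    Set (ℙ (ZMod p) (Fin (N + 1) → ZMod p)) :=
  {x | (∀ j : Fin (N + 1), m < (j : ℕ) → x.rep j = 0) ∧ x.rep 0 ≠ 0 ∧ ratio x ∈ P}

variable (F : Fin (N + 1) → MvPolynomial (Fin (N + 1)) ℤ)

theorem comps_ratio_le (hN : 1 ≤ N) (m : ℕ) (hm : 1 ≤ m) (P : Set (ZMod p)) (T : ZMod p → ZMod p)
    (hT : ∀ r ∈ P, T r ∈ P)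
    (hF : ∀ v : Fin (N + 1) → ZMod p, (∀ j : Fin (N + 1), m < (j : ℕ) → v j = 0) → v 0 ≠ 0 →
      v 1 / v 0 ∈ P → (∀ j : Fin (N + 1), m < (j : ℕ) → evalMod p F v j = 0) ∧
        evalMod p F v 0 ≠ 0 ∧ evalMod p F v 1 / evalMod p F v 0 = T (v 1 / v 0)) :
    comps (fun r : P => (⟨T r, hT r r.2⟩ : P)) ≤ comps (redMap p F) := by
  have hVmem : ∀ x ∈ baseSet N p m P, redMap p F x ∈ baseSet N p m P ∧
      ratio (redMap p F x) = T (ratio x) := by
    intro x hx
    obtain ⟨h1, h2, h3⟩ := hx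
    obtain ⟨k1, k2, k3⟩ := hF x.rep h1 h2 h3
    have hne : evalMod p F x.rep ≠ 0 := by
      intro h
      exact k2 (by rw [h]; rfl)
    have hred : redMap p F x = Projectivization.mk (ZMod p) (evalMod p F x.rep) hne := by
      unfold redMap
      rw [dif_pos hne]
    have hrat : ratio (redMap p F x) = T (ratio x) := by
      rw [hred, ratio_mk, k3]; rfl
    refine ⟨⟨?_, ?_, ?_⟩, hrat⟩
    · intro j hj
      rw [hred, rep_mk_zero_iff]
      exact k1 j hj
    · rw [hred, Ne, rep_mk_zero_iff]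
      exact k2
    · rw [hrat]; exact hT _ h3
  refine le_trans ?_ (comps_restrict_le (redMap p F) (baseSet N p m P) (fun x hx => (hVmem x hx).1))
  apply comps_le_of_semiconj _ _ (fun x : baseSet N p m P => (⟨ratio x.1, x.2.2.2⟩ : P))
  · rintro ⟨r, hr⟩
    let v : Fin (N + 1) → ZMod p := fun j => if j = 0 then 1 else if j = 1 then r else 0
    have h01 : (1 : Fin (N + 1)) ≠ 0 := by
      intro h
      have := congrArg Fin.val h
      rw [Fin.val_one', Fin.val_zero] at this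
      rw [Nat.mod_eq_of_lt (by omega)] at this
      omega
    have hv0 : v 0 = 1 := by simp [v]
    have hv1 : v 1 = r := by simp [v, h01]
    have hv : v ≠ 0 := by
      intro h
      have : v 0 = 0 := by rw [h]; rfl
      rw [hv0] at this
      exact one_ne_zero this
    have hrat : ratio (Projectivization.mk (ZMod p) v hv) = r := by
      rw [ratio_mk, hv0, hv1, div_one]
    refine ⟨⟨Projectivization.mk (ZMod p) v hv, ?_, ?_, ?_⟩, ?_⟩
    · intro j hj
      rw [rep_mk_zero_iff]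
      have hj0 : j ≠ 0 := by
        rintro rfl
        simp at hj
      have hj1 : j ≠ 1 := by
        rintro rfl
        rw [Fin.val_one', Nat.mod_eq_of_lt (by omega)] at hj
        omega
      simp [v, hj0, hj1]
    · rw [Ne, rep_mk_zero_iff, hv0]; exact one_ne_zero
    · rw [hrat]; exact hr
    · apply Subtype.ext
      exact hrat
  · intro x
    apply Subtype.ext
    exact (hVmem x.1 x.2).2

/-- power maps on the units, as maps on the nonzero ratios -/
theorem comps_units_le (c : (ZMod p)ˣ) (e : ℕ) (T : ZMod p → ZMod p)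
    (hT : ∀ r ∈ {r : ZMod p | r ≠ 0}, T r ∈ {r : ZMod p | r ≠ 0})
    (hTe : ∀ u : (ZMod p)ˣ, T (u : ZMod p) = c * (u : ZMod p) ^ e) :
    comps (fun u : (ZMod p)ˣ => c * u ^ e) ≤
      comps (fun r : {r : ZMod p | r ≠ 0} => (⟨T r, hT r r.2⟩ : {r : ZMod p | r ≠ 0})) := by
  apply comps_le_of_semiconj _ _ (fun r : {r : ZMod p | r ≠ 0} => Units.mk0 r.1 r.2)
  · intro u
    exact ⟨⟨u, u.ne_zero⟩, Units.ext rfl⟩
  · intro r
    apply Units.ext
    have := hTe (Units.mk0 r.1 r.2)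
    simpa using this

/-- Chebyshev maps -/
theorem comps_dickson_le (s : (ZMod p)ˣ) (hs : s * s = 1) (d : ℕ) (T : ZMod p → ZMod p)
    (P : Set (ZMod p)) (hP : P = Set.range (fun u : (ZMod p)ˣ => (u : ZMod p) + (u⁻¹ : (ZMod p)ˣ)))
    (hT : ∀ r ∈ P, T r ∈ P)
    (hTe : ∀ r, T r = s * (Polynomial.dickson 1 (1 : ZMod p) d).eval r) :
    comps (fun u : (ZMod p)ˣ => s * u ^ d) ≤ 2 * comps (fun r : P => (⟨T r, hT r r.2⟩ : P)) := by
  have hsinv : s⁻¹ = s := inv_eq_of_mul_eq_one_right hs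
  apply comps_le_two_mul_of_involution (fun u : (ZMod p)ˣ => s * u ^ d) _
    (fun u : (ZMod p)ˣ => (⟨(u : ZMod p) + (u⁻¹ : (ZMod p)ˣ), by rw [hP]; exact ⟨u, rfl⟩⟩ : P))
    (fun u => u⁻¹)
  · intro u
    apply Subtype.ext
    change ((s * u ^ d : (ZMod p)ˣ) : ZMod p) + ((s * u ^ d)⁻¹ : (ZMod p)ˣ) =
      T ((u : ZMod p) + (u⁻¹ : (ZMod p)ˣ))
    rw [hTe, Polynomial.dickson_one_one_eval_add_inv _ _ (Units.mul_inv u), mul_inv, hsinv]
    push_cast
    ring
  · intro x y hxy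
    have h : (x : ZMod p) + (x⁻¹ : (ZMod p)ˣ) = (y : ZMod p) + (y⁻¹ : (ZMod p)ˣ) :=
      congrArg Subtype.val hxy
    have hx : (x : ZMod p) * (x⁻¹ : (ZMod p)ˣ) = 1 := Units.mul_inv x
    have hy : (y : ZMod p) * (y⁻¹ : (ZMod p)ˣ) = 1 := Units.mul_inv y
    have h2 : ((x : ZMod p) - y) * ((x : ZMod p) * y - 1) = 0 := by
      linear_combination (x : ZMod p) * (y : ZMod p) * h - (y : ZMod p) * hx + (x : ZMod p) * hy
    rcases mul_eq_zero.mp h2 with h3 | h3
    · left; exact Units.ext (sub_eq_zero.mp h3)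
    · right
      have : x * y = 1 := by
        apply Units.ext
        push_cast
        exact sub_eq_zero.mp h3
      exact eq_inv_of_mul_eq_one_left this
  · intro x
    change (s * x ^ d)⁻¹ = s * (x⁻¹) ^ d
    rw [mul_inv, hsinv, inv_pow]

end

end Pool.Agent.Lib.MP_05805c_nt
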