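import Mathlib
import Pool.Agent.Lib.MP_05805c_nt.Omega
import Pool.Agent.Lib.MP_05805c_nt.Proj

/-!
From a pointwise lower bound `3^ω(p-1) ≤ B · comps` to density zero.
-/

set_option autoImplicit false

namespace Pool.Agent.Lib.MP_05805c_nt

open Filter Topology

/-- the set of primes in `S` has natural density zero (in the set of all primes) -/
def HasDensityZero (S : Set ℕ) : Prop :=
  Tendsto (fun n : ℕ => (({p : ℕ | p ≤ n ∧ p.Prime ∧ p ∈ S}.ncard : ℝ)) /
    (Nat.primeCounting n : ℝ)) atTop (𝓝 0)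

theorem primeCounting_ge (n : ℕ) (hn : 2 ≤ n) :
    (1 / 10 : ℝ) * n / Real.log n ≤ (Nat.primeCounting n : ℝ) := by
  refine le_trans ?_ (Chebyshev.pi_ge n)
  have hlog : 0 < Real.log n := Real.log_pos (by exact_mod_cast hn)
  refine div_le_div_of_nonneg_right ?_ hlog.le
  have hl2 : (0.6931471803 : ℝ) < Real.log 2 := Real.log_two_gt_d9
  have hn' : (2 : ℝ) ≤ n := by exact_mod_cast hn
  have h3 : Real.log ((n : ℝ) + 1) ≤ Real.log 3 + ((n + 1) / 3 - 1) := by
    have : Real.log ((n : ℝ) + 1) = Real.log 3 + Real.log ((n + 1) / 3) := by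
      rw [← Real.log_mul (by norm_num) (by positivity)]
      congr 1
      ring
    rw [this]
    have := Real.log_le_sub_one_of_pos (show (0 : ℝ) < (n + 1) / 3 by positivity)
    linarith
  have hl3 : Real.log 3 < 1.0987 := by
    have h : Real.log 3 < 1.0986122888 := Real.log_three_lt_d9
    linarith
  nlinarith

/-- comparison with `fewPrimes` -/
theorem hasDensityZero_of_subset (S : Set ℕ) (A : ℝ) (hA : 0 < A) (M : ℕ)
    (h : ∀ p ∈ S, p.Prime → M < p →
      (3 : ℝ) ^ (p - 1).primeFactors.card ≤ A * Real.log p) : HasDensityZero S := by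
  unfold HasDensityZero
  have hlim : Tendsto (fun n : ℕ => 10 * (((fewPrimes A n).card : ℝ) * Real.log n / n) +
      10 * ((M + 1 : ℝ) * (Real.log n / n))) atTop (𝓝 0) := by
    have h1 := (tendsto_fewPrimes A hA).const_mul 10
    have h2 : Tendsto (fun n : ℕ => Real.log (n : ℝ) / n) atTop (𝓝 0) := by
      have h3 : Tendsto (fun x : ℝ => Real.log x / x ^ (1 : ℝ)) atTop (𝓝 0) :=
        (isLittleO_log_rpow_atTop (by norm_num)).tendsto_div_nhds_zero
      have h4 := h3.comp tendsto_natCast_atTop_atTop (α := ℕ)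
      refine h4.congr ?_
      intro n
      simp only [Function.comp_apply, Real.rpow_one]
    have h5 := (h2.const_mul (M + 1 : ℝ)).const_mul 10
    have := h1.add h5
    simpa using this
  refine squeeze_zero' ?_ ?_ hlim
  · filter_upwards with n
    positivity
  · filter_upwards [eventually_ge_atTop 2] with n hn
    have hsub : {p : ℕ | p ≤ n ∧ p.Prime ∧ p ∈ S} ⊆
        ((fewPrimes A n ∪ Finset.range (M + 1) : Finset ℕ) : Set ℕ) := by
      rintro p ⟨h1, h2, h3⟩
      rw [Finset.coe_union, Set.mem_union, Finset.mem_coe, Finset.mem_coe]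
      rcases lt_or_ge M p with hp | hp
      · left
        unfold fewPrimes
        rw [Finset.mem_filter, Finset.mem_Icc]
        exact ⟨⟨h2.one_lt.le, h1⟩, h2, h p h3 h2 hp⟩
      · right
        rw [Finset.mem_range]; omega
    have hcard := Set.ncard_le_ncard hsub (Finset.finite_toSet _)
    rw [Set.ncard_coe_finset] at hcard
    have h2 := Finset.card_union_le (fewPrimes A n) (Finset.range (M + 1))
    rw [Finset.card_range] at h2
    have h3 : ({p : ℕ | p ≤ n ∧ p.Prime ∧ p ∈ S}.ncard : ℝ) ≤ (fewPrimes A n).card + (M + 1) := by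
      exact_mod_cast hcard.trans h2
    have hπ := primeCounting_ge n hn
    have hn0 : (0 : ℝ) < n := by exact_mod_cast (by omega : 0 < n)
    have hlog : 0 < Real.log n := Real.log_pos (by exact_mod_cast hn)
    have hpos : 0 < (1 / 10 : ℝ) * n / Real.log n := by positivity
    calc ({p : ℕ | p ≤ n ∧ p.Prime ∧ p ∈ S}.ncard : ℝ) / (Nat.primeCounting n : ℝ)
        ≤ ((fewPrimes A n).card + (M + 1)) / ((1 / 10 : ℝ) * n / Real.log n) :=
          div_le_div₀ (by positivity) h3 hpos hπ
      _ = _ := by field_simp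

/-- the average number of components is at most `1 + N log p` in the range of the problem -/
theorem compAvg_pow_le (p N : ℕ) (hp : 2 ≤ p) (ε : ℝ) (hε : 0 < ε) :
    compAvg ⌊(p : ℝ) ^ ((1 - ε) * N)⌋₊ ≤ (N + 2) * Real.log p := by
  have hp' : (2 : ℝ) ≤ p := by exact_mod_cast hp
  have hlog2 : (0.6931471803 : ℝ) < Real.log 2 := Real.log_two_gt_d9
  have hlp : Real.log 2 ≤ Real.log p := Real.log_le_log (by norm_num) hp'
  have hlogp : 0 < Real.log p := by linarith
  rcases Nat.eq_zero_or_pos ⌊(p : ℝ) ^ ((1 - ε) * N)⌋₊ with h0 | h0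
  · rw [h0]
    refine (compAvg_le 0).trans ?_
    simp only [Finset.Icc_eq_empty_of_lt Nat.zero_lt_one, Finset.sum_empty]
    positivity
  · refine (compAvg_le_log _ h0).trans ?_
    have h1 : (⌊(p : ℝ) ^ ((1 - ε) * N)⌋₊ : ℝ) ≤ (p : ℝ) ^ ((1 - ε) * N) :=
      Nat.floor_le (by positivity)
    have h2 : Real.log (⌊(p : ℝ) ^ ((1 - ε) * N)⌋₊ : ℝ) ≤ (1 - ε) * N * Real.log p := by
      rw [← Real.log_rpow (by linarith)]
      exact Real.log_le_log (by exact_mod_cast h0) h1
    have h3 : (1 - ε) * N * Real.log p ≤ N * Real.log p := by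
      apply mul_le_mul_of_nonneg_right _ hlogp.le
      have : (0 : ℝ) ≤ N := Nat.cast_nonneg N
      nlinarith
    nlinarith

end Pool.Agent.Lib.MP_05805c_nt
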