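import Mathlib

/-!
Connected components of functional graphs: basic facts, and the mean over all self-maps.
-/

set_option autoImplicit false

namespace Pool.Agent.Lib.MP_05805c_nt

open Function

/-- The functional graph of `g`, arrow directions (and loops) ignored. -/
def fgraph {S : Type*} (g : S → S) : SimpleGraph S := SimpleGraph.fromRel (fun x y => g x = y)

/-- `Comp(G_g)`: the number of connected components of the functional graph of `g`. -/
noncomputable def comps {S : Type*} (g : S → S) : ℕ := Nat.card (fgraph g).ConnectedComponent

/-- `Comp^avg(n)`: the mean of `Comp(G_g)` over all `n^n` self-maps `g` of an `n`-element set. -/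
noncomputable def compAvg (n : ℕ) : ℝ :=
  (∑ g : Fin n → Fin n, (comps g : ℝ)) / (n : ℝ) ^ n

section basic

variable {S : Type*} (g : S → S)

lemma comp_apply_eq (x : S) :
    (fgraph g).connectedComponentMk (g x) = (fgraph g).connectedComponentMk x := by
  by_cases h : g x = x
  · rw [h]
  · apply SimpleGraph.ConnectedComponent.sound
    apply SimpleGraph.Adj.reachable
    rw [fgraph, SimpleGraph.fromRel_adj]
    exact ⟨h, Or.inr rfl⟩

lemma comp_iterate_eq (x : S) (n : ℕ) :
    (fgraph g).connectedComponentMk (g^[n] x) = (fgraph g).connectedComponentMk x := by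
  induction n with
  | zero => rfl
  | succ n ih => rw [Function.iterate_succ_apply', comp_apply_eq, ih]

/-- a function constant along arrows is constant on components -/
lemma eq_of_reachable {ι : Type*} (I : S → ι) (hI : ∀ x, I (g x) = I x) {x y : S}
    (h : (fgraph g).Reachable x y) : I x = I y := by
  obtain ⟨w⟩ := h
  induction w with
  | nil => rfl
  | cons hadj _ ih =>
    rw [← ih]
    rw [fgraph, SimpleGraph.fromRel_adj] at hadj
    rcases hadj.2 with h | h
    · rw [← h, hI]
    · rw [← h, hI]

/-- the number of components is at least the size of the range of any invariant function -/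
lemma card_range_le_comps [Finite S] {ι : Type*} (I : S → ι) (hI : ∀ x, I (g x) = I x) :
    Nat.card (Set.range I) ≤ comps g := by
  classical
  have hfin : Finite (fgraph g).ConnectedComponent :=
    Finite.of_surjective (fgraph g).connectedComponentMk
      (fun c => c.exists_rep)
  let F : (fgraph g).ConnectedComponent → Set.range I :=
    SimpleGraph.ConnectedComponent.lift (fun x => ⟨I x, x, rfl⟩)
      (fun x y w _ => Subtype.ext (eq_of_reachable g I hI ⟨w⟩))
  have hF : Function.Surjective F := by
    rintro ⟨_, x, rfl⟩
    exact ⟨(fgraph g).connectedComponentMk x, rfl⟩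
  exact Nat.card_le_card_of_surjective F hF

/-- semiconjugate surjection -/
lemma comps_le_of_semiconj {S' : Type*} [Finite S] (g' : S' → S') (φ : S → S')
    (hφ : Function.Surjective φ) (h : ∀ x, φ (g x) = g' (φ x)) : comps g' ≤ comps g := by
  have h1 := card_range_le_comps g (fun x => (fgraph g').connectedComponentMk (φ x))
    (fun x => by simp only [h, comp_apply_eq])
  have h2 : Set.range (fun x => (fgraph g').connectedComponentMk (φ x)) = Set.univ := by
    rw [Set.eq_univ_iff_forall]
    intro c
    obtain ⟨y, hy⟩ := c.exists_rep
    obtain ⟨x, rfl⟩ := hφ y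
    exact ⟨x, hy⟩
  rw [h2, Nat.card_coe_set_eq, Set.ncard_univ] at h1
  exact h1

/-- version where only a subset maps down -/
lemma comps_le_of_semiconj_on {S' : Type*} [Finite S] (g' : S' → S') (V : Set S)
    (φ : S → S') (hV : ∀ x, g x ∈ V ↔ x ∈ V)
    (hφ : ∀ y, ∃ x ∈ V, φ x = y) (h : ∀ x ∈ V, φ (g x) = g' (φ x)) : comps g' ≤ comps g := by
  classical
  let I : S → Option (fgraph g').ConnectedComponent := fun x =>
    if x ∈ V then some ((fgraph g').connectedComponentMk (φ x)) else none
  have hI : ∀ x, I (g x) = I x := by
    intro x
    by_cases hx : x ∈ V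
    · simp only [I, hx, (hV x).mpr hx, if_true, h x hx, comp_apply_eq]
    · have : g x ∉ V := fun h' => hx ((hV x).mp h')
      simp only [I, hx, this, if_false]
  have h1 := card_range_le_comps g I hI
  have hfin : Finite (Set.range I) := Set.finite_range I
  have h2 : Nat.card (Set.range (fun c : (fgraph g').ConnectedComponent => some c)) ≤
      Nat.card (Set.range I) := by
    apply Nat.card_mono (Set.finite_range I)
    rintro _ ⟨c, rfl⟩
    obtain ⟨y, hy⟩ := c.exists_rep
    obtain ⟨x, hx, rfl⟩ := hφ y
    refine ⟨x, ?_⟩
    simp only [I, hx, if_true]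
    rw [← hy]; rfl
  have h3 : Nat.card (Set.range (fun c : (fgraph g').ConnectedComponent => some c)) =
      comps g' := by
    rw [comps]
    exact Nat.card_range_of_injective (fun a b hab => Option.some.inj hab)
  omega

/-- an involution (or the identity) on a finite set has at least half as many components as
points -/
lemma card_le_two_mul_comps [Fintype S] (hg : ∀ x, g (g x) = x) :
    Fintype.card S ≤ 2 * comps g := by
  classical
  have hreach : ∀ x y : S, (fgraph g).Reachable x y → y = x ∨ y = g x := by
    intro x y h
    have := eq_of_reachable g (fun z => ({z, g z} : Set S))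
      (fun z => by simp only [hg]; exact Set.pair_comm _ _) h
    have hy : y ∈ ({y, g y} : Set S) := Set.mem_insert _ _
    rw [← this] at hy
    simpa using hy
  have hfin : Finite (fgraph g).ConnectedComponent :=
    Finite.of_surjective (fgraph g).connectedComponentMk (fun c => c.exists_rep)
  have : Fintype (fgraph g).ConnectedComponent := Fintype.ofFinite _
  have h1 : Fintype.card S ≤ ∑ c : (fgraph g).ConnectedComponent, 2 := by
    rw [← Finset.card_univ, Finset.card_eq_sum_card_fiberwise
      (f := (fgraph g).connectedComponentMk) (t := Finset.univ) (fun x _ => Finset.mem_univ _)]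
    apply Finset.sum_le_sum
    intro c _
    obtain ⟨x, hx⟩ := c.exists_rep
    have hsub : Finset.univ.filter (fun y => (fgraph g).connectedComponentMk y = c) ⊆
        {x, g x} := by
      intro y hy
      rw [Finset.mem_filter] at hy
      have h2 : (fgraph g).connectedComponentMk x = (fgraph g).connectedComponentMk y := by
        rw [hy.2, ← hx]; rfl
      have := hreach x y (SimpleGraph.ConnectedComponent.exact h2)
      simpa using this
    exact (Finset.card_le_card hsub).trans Finset.card_le_two
  have h2 : ∑ c : (fgraph g).ConnectedComponent, 2 = 2 * comps g := by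
    rw [Finset.sum_const, smul_eq_mul, comps, Nat.card_eq_fintype_card, Finset.card_univ,
      mul_comm]
  omega

lemma comps_pos [Finite S] [Nonempty S] : 0 < comps g := by
  have hfin : Finite (fgraph g).ConnectedComponent :=
    Finite.of_surjective (fgraph g).connectedComponentMk (fun c => c.exists_rep)
  have : Nonempty (fgraph g).ConnectedComponent :=
    ⟨(fgraph g).connectedComponentMk (Classical.arbitrary S)⟩
  exact Nat.card_pos

end basic

section average

variable {S : Type*} [Fintype S] [DecidableEq S]

/-- the number of pairs `(g, x)` with `x` periodic of exact period `k` under `g` -/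
lemma card_period_le (k : ℕ) (hk : 0 < k) :
    ((Finset.univ : Finset ((S → S) × S)).filter (fun q => minimalPeriod q.1 q.2 = k)).card ≤
      Fintype.card S ^ Fintype.card S := by
  classical
  set n := Fintype.card S with hn
  have : NeZero k := ⟨hk.ne'⟩
  rcases lt_or_ge n k with hnk | hkn
  · -- no point of period `k > n`
    have : ((Finset.univ : Finset ((S → S) × S)).filter
        (fun q => minimalPeriod q.1 q.2 = k)) = ∅ := by
      rw [Finset.filter_eq_empty_iff]
      rintro ⟨g, x⟩ _ hper
      simp only at hper
      have hinj : Set.InjOn (fun i => g^[i] x) (Set.Iio k) := by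
        rw [← hper]; exact Function.iterate_injOn_Iio_minimalPeriod
      have h1 : (Finset.range k).card ≤ (Finset.univ : Finset S).card :=
        Finset.card_le_card_of_injOn (fun i => g^[i] x) (fun _ _ => Finset.mem_coe.mpr (Finset.mem_univ _))
          (by intro a ha b hb hab
              exact hinj (by simpa using ha) (by simpa using hb) hab)
      rw [Finset.card_range, Finset.card_univ] at h1
      omega
    rw [this]; simp
  · -- map `(g, x)` to the tuple of its orbit
    let t : (S → S) × S → (Fin k → S) := fun q i => q.1^[(i : ℕ)] q.2
    have hmaps : ∀ q ∈ (Finset.univ : Finset ((S → S) × S)).filter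
        (fun q => minimalPeriod q.1 q.2 = k), t q ∈ (Finset.univ : Finset (Fin k → S)) :=
      fun _ _ => Finset.mem_univ _
    rw [Finset.card_eq_sum_card_fiberwise hmaps]
    have hfib : ∀ u ∈ (Finset.univ : Finset (Fin k → S)),
        (((Finset.univ : Finset ((S → S) × S)).filter
        (fun q => minimalPeriod q.1 q.2 = k)).filter (fun q => t q = u)).card ≤ n ^ (n - k) := by
      intro u _
      by_cases hu : Function.Injective u
      · -- `g` is prescribed on the range of `u`, `x = u 0`
        let C : Finset S := Finset.univ.image u
        have hC : C.card = k := by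
          rw [Finset.card_image_of_injective _ hu, Finset.card_univ, Fintype.card_fin]
        let h : S → S := fun s => if hs : ∃ i, u i = s then u (hs.choose + 1) else s
        have hmap : ∀ q ∈ ((Finset.univ : Finset ((S → S) × S)).filter
            (fun q => minimalPeriod q.1 q.2 = k)).filter (fun q => t q = u),
            q.1 ∈ Fintype.piFinset (fun s => if s ∈ C then {h s} else (Finset.univ : Finset S)) := by
          intro q hq
          rw [Finset.mem_filter, Finset.mem_filter] at hq
          obtain ⟨⟨_, hper⟩, htq⟩ := hq
          rw [Fintype.mem_piFinset]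
          intro s
          split_ifs with hs
          · rw [Finset.mem_singleton]
            have hex : ∃ i, u i = s := by
              simpa [C] using hs
            have h1 : h s = u (hex.choose + 1) := by simp only [h, dif_pos hex]
            rw [h1]
            set i := hex.choose with hi
            have hui : u i = s := hex.choose_spec
            rw [← hui, ← htq]
            change q.1 (q.1^[(i : ℕ)] q.2) = q.1^[((i + 1 : Fin k) : ℕ)] q.2
            rw [← Function.iterate_succ_apply' q.1]
            rcases Nat.lt_or_ge ((i : ℕ) + 1) k with hlt | hge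
            · have : ((i + 1 : Fin k) : ℕ) = (i : ℕ) + 1 := by
                rw [Fin.val_add, Fin.val_one']
                rw [Nat.add_mod_mod]
                exact Nat.mod_eq_of_lt hlt
              rw [this]
            · have hik : (i : ℕ) + 1 = k := by have := i.isLt; omega
              have h2 : ((i + 1 : Fin k) : ℕ) = 0 := by
                rw [Fin.val_add, Fin.val_one', Nat.add_mod_mod, hik, Nat.mod_self]
              rw [h2, Nat.succ_eq_add_one, hik]
              have := Function.iterate_minimalPeriod (f := q.1) (x := q.2)
              rw [hper] at this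
              simpa using this
          · exact Finset.mem_univ _
        have hinj : Set.InjOn (fun q : (S → S) × S => q.1)
            (((Finset.univ : Finset ((S → S) × S)).filter
            (fun q => minimalPeriod q.1 q.2 = k)).filter (fun q => t q = u) : Set ((S → S) × S)) := by
          intro q hq q' hq' hqq
          rw [Finset.mem_coe, Finset.mem_filter] at hq hq'
          have h1 : q.2 = u 0 := by rw [← hq.2]; rfl
          have h2 : q'.2 = u 0 := by rw [← hq'.2]; rfl
          exact Prod.ext hqq (h1.trans h2.symm)
        refine (Finset.card_le_card_of_injOn _ hmap hinj).trans ?_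
        rw [Fintype.card_piFinset]
        have h3 : ∀ s : S, (if s ∈ C then {h s} else (Finset.univ : Finset S)).card =
            if s ∈ C then 1 else n := by
          intro s; split_ifs <;> simp [hn]
        rw [Finset.prod_congr rfl (fun s _ => h3 s), Finset.prod_ite]
        simp only [Finset.prod_const_one, Finset.prod_const, one_mul]
        have h4 : (Finset.univ.filter (fun s => s ∉ C)).card = n - k := by
          rw [Finset.filter_not, Finset.card_sdiff_of_subset (Finset.filter_subset _ _),
            Finset.card_univ, Finset.filter_mem_eq_inter, Finset.univ_inter, hC]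
        rw [h4]
      · -- the fibre is empty
        have : (((Finset.univ : Finset ((S → S) × S)).filter
            (fun q => minimalPeriod q.1 q.2 = k)).filter (fun q => t q = u)) = ∅ := by
          rw [Finset.filter_eq_empty_iff]
          rintro ⟨g, x⟩ hq htq
          rw [Finset.mem_filter] at hq
          simp only at hq
          apply hu
          rw [← htq]
          intro i j hij
          have hinj : Set.InjOn (fun i => g^[i] x) (Set.Iio k) := by
            rw [← hq.2]; exact Function.iterate_injOn_Iio_minimalPeriod
          exact Fin.ext (hinj (by simpa using i.isLt) (by simpa using j.isLt) hij)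
        rw [this]; simp
    refine (Finset.sum_le_sum hfib).trans ?_
    rw [Finset.sum_const, smul_eq_mul, Finset.card_univ, Fintype.card_fun, Fintype.card_fin,
      ← hn, ← pow_add, Nat.add_sub_cancel' hkn]

/-- the number of components is at most the sum over periodic points of `1 / period` -/
lemma comps_le_sum (g : S → S) :
    (comps g : ℝ) ≤ ∑ x : S, ∑ k ∈ Finset.Icc 1 (Fintype.card S),
      if minimalPeriod g x = k then (1 : ℝ) / k else 0 := by
  classical
  have hfin : Finite (fgraph g).ConnectedComponent :=
    Finite.of_surjective (fgraph g).connectedComponentMk (fun c => c.exists_rep)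
  have : Fintype (fgraph g).ConnectedComponent := Fintype.ofFinite _
  rw [← Finset.sum_fiberwise (s := Finset.univ) (g := (fgraph g).connectedComponentMk)]
  rw [comps, Nat.card_eq_fintype_card, ← Finset.card_univ, Finset.card_eq_sum_ones,
    Nat.cast_sum]
  apply Finset.sum_le_sum
  intro c _
  push_cast
  obtain ⟨x, hx⟩ := c.exists_rep
  -- a periodic point in the component
  obtain ⟨i, j, hne, hij⟩ := Finite.exists_ne_map_eq_of_infinite (fun i : ℕ => g^[i] x)
  obtain ⟨y, hyc, p, hp, hper⟩ : ∃ y, (fgraph g).connectedComponentMk y = c ∧
      ∃ p, 0 < p ∧ g^[p] y = y := by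
    rcases Nat.lt_or_gt_of_ne hne with h | h
    · refine ⟨g^[i] x, ?_, j - i, by omega, ?_⟩
      · rw [comp_iterate_eq, ← hx]; rfl
      · rw [← Function.iterate_add_apply, Nat.sub_add_cancel h.le]; exact hij.symm
    · refine ⟨g^[j] x, ?_, i - j, by omega, ?_⟩
      · rw [comp_iterate_eq, ← hx]; rfl
      · rw [← Function.iterate_add_apply, Nat.sub_add_cancel h.le]; exact hij
  have hP : IsPeriodicPt g p y := hper
  set q := minimalPeriod g y with hq
  have hq0 : 0 < q := hP.minimalPeriod_pos hp
  have hinj : Set.InjOn (fun i => g^[i] y) (Set.Iio q) := Function.iterate_injOn_Iio_minimalPeriod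
  have hmin : ∀ l, minimalPeriod g (g^[l] y) = q := by
    intro l
    exact Function.minimalPeriod_apply_iterate ⟨p, hp, hP⟩ l
  have hqn : q ≤ Fintype.card S := by
    have h1 : (Finset.range q).card ≤ (Finset.univ : Finset S).card :=
      Finset.card_le_card_of_injOn (fun i => g^[i] y)
        (fun _ _ => Finset.mem_coe.mpr (Finset.mem_univ _))
        (by intro a ha b hb hab
            exact hinj (by simpa using ha) (by simpa using hb) hab)
    rwa [Finset.card_range, Finset.card_univ] at h1
  have hterm : ∀ l, (∑ k ∈ Finset.Icc 1 (Fintype.card S),
      if minimalPeriod g (g^[l] y) = k then (1 : ℝ) / k else 0) = 1 / q := by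
    intro l
    rw [hmin l, Finset.sum_ite_eq, if_pos (Finset.mem_Icc.mpr ⟨hq0, hqn⟩)]
  have hnonneg : ∀ z : S, 0 ≤ ∑ k ∈ Finset.Icc 1 (Fintype.card S),
      if minimalPeriod g z = k then (1 : ℝ) / k else 0 := by
    intro z
    apply Finset.sum_nonneg
    intro k _
    split_ifs <;> positivity
  calc (1 : ℝ) = ∑ l ∈ Finset.range q, (1 : ℝ) / q := by
        rw [Finset.sum_const, Finset.card_range, nsmul_eq_mul]
        have : (q : ℝ) ≠ 0 := by exact_mod_cast hq0.ne'
        field_simp
    _ = ∑ z ∈ (Finset.range q).image (fun l => g^[l] y),
        ∑ k ∈ Finset.Icc 1 (Fintype.card S),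
          if minimalPeriod g z = k then (1 : ℝ) / k else 0 := by
        rw [Finset.sum_image]
        · exact Finset.sum_congr rfl (fun l _ => (hterm l).symm)
        · intro a ha b hb hab
          exact hinj (by simpa using ha) (by simpa using hb) hab
    _ ≤ _ := by
        apply Finset.sum_le_sum_of_subset_of_nonneg
        · intro z hz
          rw [Finset.mem_image] at hz
          obtain ⟨l, _, rfl⟩ := hz
          rw [Finset.mem_filter]
          exact ⟨Finset.mem_univ _, by rw [comp_iterate_eq, hyc]⟩
        · intro z _ _
          exact hnonneg z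

/-- **Upper bound for the mean number of components.** -/
theorem compAvg_le (n : ℕ) : compAvg n ≤ ∑ k ∈ Finset.Icc 1 n, (1 : ℝ) / k := by
  classical
  rcases Nat.eq_zero_or_pos n with rfl | hn
  · unfold compAvg
    have h0 : ∀ g : Fin 0 → Fin 0, comps g = 0 := by
      intro g
      have : IsEmpty (fgraph g).ConnectedComponent := by
        constructor
        intro c
        obtain ⟨x, _⟩ := c.exists_rep
        exact x.elim0
      rw [comps, Nat.card_of_isEmpty]
    simp [h0]
  · unfold compAvg
    have hpos : (0 : ℝ) < (n : ℝ) ^ n := by positivity
    rw [div_le_iff₀ hpos]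
    have h1 : ∑ g : Fin n → Fin n, (comps g : ℝ) ≤ ∑ g : Fin n → Fin n, ∑ x : Fin n,
        ∑ k ∈ Finset.Icc 1 n, if minimalPeriod g x = k then (1 : ℝ) / k else 0 := by
      apply Finset.sum_le_sum
      intro g _
      have := comps_le_sum g
      rwa [Fintype.card_fin] at this
    refine h1.trans ?_
    rw [← Finset.sum_product' (Finset.univ : Finset (Fin n → Fin n)) (Finset.univ : Finset (Fin n))
      (fun g x => ∑ k ∈ Finset.Icc 1 n, if minimalPeriod g x = k then (1 : ℝ) / k else 0)]
    rw [Finset.sum_comm, Finset.sum_mul]
    apply Finset.sum_le_sum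
    intro k hk
    have hk1 := (Finset.mem_Icc.mp hk).1
    rw [← Finset.sum_filter, Finset.sum_const, nsmul_eq_mul, mul_comm]
    have h2 := card_period_le (S := Fin n) k (by omega)
    rw [Fintype.card_fin] at h2
    have h3 : ((((Finset.univ : Finset (Fin n → Fin n)) ×ˢ (Finset.univ : Finset (Fin n))).filter
        (fun q => minimalPeriod q.1 q.2 = k)).card : ℝ) ≤ (n : ℝ) ^ n := by
      rw [Finset.univ_product_univ]
      exact_mod_cast h2
    exact mul_le_mul_of_nonneg_left h3 (by positivity)

theorem compAvg_le_log (n : ℕ) (hn : 1 ≤ n) : compAvg n ≤ 1 + Real.log n := by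
  refine (compAvg_le n).trans ?_
  have h := harmonic_le_one_add_log n
  rw [harmonic_eq_sum_Icc] at h
  push_cast at h
  simpa [one_div] using h

end average

end Pool.Agent.Lib.MP_05805c_nt
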