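import Mathlib
import Pool.Agent.Lib.MP_05805c_nt.Density

/-!
The pointwise bound `3^ω(p-1) ≤ 4 · 3^c · comps` for maps with a power or Chebyshev base.
-/

set_option autoImplicit false

namespace Pool.Agent.Lib.MP_05805c_nt

open MvPolynomial

/-- the ideal generated by the variables `X j`, `j > m` -/
noncomputable def tailIdeal (N m : ℕ) : Ideal (MvPolynomial (Fin (N + 1)) ℤ) :=
  Ideal.span {P | ∃ j : Fin (N + 1), m < (j : ℕ) ∧ P = X j}

/-- the homogenisation `∑ c_k X_1^k X_0^(d-k)` of the Dickson polynomial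
`D_d(t) = ∑ c_k t^k`, the one with `D_d(u + 1/u) = u^d + 1/u^d` -/
noncomputable def dickH (N d : ℕ) : MvPolynomial (Fin (N + 1)) ℤ :=
  ∑ k ∈ Finset.range (d + 1),
    C ((Polynomial.dickson 1 (1 : ℤ) d).coeff k) * X 1 ^ k * X 0 ^ (d - k)

lemma aeval_tail {N m p : ℕ} {P : MvPolynomial (Fin (N + 1)) ℤ} (hP : P ∈ tailIdeal N m)
    (v : Fin (N + 1) → ZMod p) (hv : ∀ j : Fin (N + 1), m < (j : ℕ) → v j = 0) :
    aeval v P = 0 := by
  have h : tailIdeal N m ≤ RingHom.ker (aeval (R := ℤ) v) := by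
    unfold tailIdeal
    rw [Ideal.span_le]
    rintro _ ⟨j, hj, rfl⟩
    rw [SetLike.mem_coe, RingHom.mem_ker, aeval_X]
    exact hv j hj
  exact h hP

lemma natDegree_dickson_le {R : Type*} [CommRing R] (d : ℕ) :
    (Polynomial.dickson 1 (1 : R) d).natDegree ≤ d := by
  induction d using Nat.strong_induction_on with
  | _ d ih =>
    match d with
    | 0 =>
      rw [Polynomial.dickson_zero]
      compute_degree
    | 1 =>
      rw [Polynomial.dickson_one]
      exact Polynomial.natDegree_X_le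
    | n + 2 =>
      rw [Polynomial.dickson_add_two]
      have h1 := ih (n + 1) (by omega)
      have h2 := ih n (by omega)
      refine (Polynomial.natDegree_sub_le _ _).trans (max_le ?_ ?_)
      · refine Polynomial.natDegree_mul_le.trans ?_
        have := Polynomial.natDegree_X_le (R := R)
        omega
      · refine Polynomial.natDegree_mul_le.trans ?_
        rw [Polynomial.natDegree_C]
        omega

lemma aeval_dickH {N p d : ℕ} [Fact p.Prime] (v : Fin (N + 1) → ZMod p) (hv : v 0 ≠ 0) :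
    aeval v (dickH N d) =
      v 0 ^ d * (Polynomial.dickson 1 (1 : ZMod p) d).eval (v 1 / v 0) := by
  have hmap : Polynomial.dickson 1 (1 : ZMod p) d =
      (Polynomial.dickson 1 (1 : ℤ) d).map (Int.castRingHom (ZMod p)) := by
    rw [Polynomial.map_dickson]; simp
  rw [Polynomial.eval_eq_sum_range' (n := d + 1)
    (lt_of_le_of_lt (natDegree_dickson_le d) (Nat.lt_succ_self d)), Finset.mul_sum]
  unfold dickH
  rw [map_sum]
  apply Finset.sum_congr rfl
  intro k hk
  rw [Finset.mem_range] at hk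
  rw [map_mul, map_mul, map_pow, map_pow, aeval_X, aeval_X, hmap, Polynomial.coeff_map]
  have h1 : (aeval v) (C ((Polynomial.dickson 1 (1 : ℤ) d).coeff k) :
      MvPolynomial (Fin (N + 1)) ℤ) = (Int.castRingHom (ZMod p)) ((Polynomial.dickson 1 (1 : ℤ) d).coeff k) := by
    rw [aeval_C]; simp
  rw [h1]
  have h2 : v 0 ^ d = v 0 ^ (d - k) * v 0 ^ k := by
    rw [← pow_add]; congr 1; omega
  rw [h2, div_pow]
  field_simp

lemma card_primeFactors_le {m e D : ℕ}
    (h : ∀ q : ℕ, q.Prime → q ∣ m → q ∣ e * (e - 1) → q ∣ D) (hD : D ≠ 0) :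
    m.primeFactors.card ≤ (oddPrimes m e).card + (1 + D.primeFactors.card) := by
  have hsub : m.primeFactors ⊆ oddPrimes m e ∪ ({2} ∪ D.primeFactors) := by
    intro q hq
    rw [Finset.mem_union, Finset.mem_union, Finset.mem_singleton]
    by_cases h2 : q = 2
    · right; left; exact h2
    by_cases h3 : q ∣ e * (e - 1)
    · right; right
      have hqp := Nat.prime_of_mem_primeFactors hq
      rw [Nat.mem_primeFactors]
      exact ⟨hqp, h q hqp (Nat.dvd_of_mem_primeFactors hq) h3, hD⟩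
    · left
      unfold oddPrimes
      rw [Finset.mem_filter]
      exact ⟨hq, h2, h3⟩
  have h1 := Finset.card_le_card hsub
  have h2 := Finset.card_union_le (oddPrimes m e) ({2} ∪ D.primeFactors)
  have h3 := Finset.card_union_le {2} D.primeFactors
  rw [Finset.card_singleton] at h3
  omega

lemma three_pow_omega_le {p e D K : ℕ} [Fact p.Prime] (he : 1 ≤ e)
    (h : ∀ q : ℕ, q.Prime → q ∣ p - 1 → q ∣ e * (e - 1) → q ∣ D) (hD : D ≠ 0) (c : (ZMod p)ˣ)
    (hK : comps (fun u : (ZMod p)ˣ => c * u ^ e) ≤ 2 * K) :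
    3 ^ (p - 1).primeFactors.card ≤ 4 * 3 ^ (1 + D.primeFactors.card) * K := by
  have hp2 := (Fact.out : p.Prime).two_le
  have h1 := three_pow_le_comps c e he
  have hcard : Nat.card (ZMod p)ˣ = p - 1 := by
    rw [Nat.card_eq_fintype_card, ZMod.card_units]
  rw [hcard] at h1
  have h2 := card_primeFactors_le (m := p - 1) h hD
  calc 3 ^ (p - 1).primeFactors.card
      ≤ 3 ^ ((oddPrimes (p - 1) e).card + (1 + D.primeFactors.card)) :=
        Nat.pow_le_pow_right (by norm_num) h2
    _ = 3 ^ (oddPrimes (p - 1) e).card * 3 ^ (1 + D.primeFactors.card) := pow_add _ _ _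
    _ ≤ (2 * (2 * K)) * 3 ^ (1 + D.primeFactors.card) := by
        apply Nat.mul_le_mul_right
        omega
    _ = _ := by ring

lemma cast_ne_zero_of_lt {p : ℕ} {a : ℤ} (ha : a ≠ 0) (h : a.natAbs < p) : (a : ZMod p) ≠ 0 := by
  intro h0
  rw [ZMod.intCast_zmod_eq_zero_iff_dvd] at h0
  have h1 := Int.natAbs_dvd_natAbs.mpr h0
  rw [Int.natAbs_natCast] at h1
  have h2 := Nat.le_of_dvd (Int.natAbs_pos.mpr ha) h1
  omega

/-- the three kinds of base maps -/
def BaseType (N m d : ℕ) (F : Fin (N + 1) → MvPolynomial (Fin (N + 1)) ℤ) (a b : ℤ) : Prop :=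
  (F 0 - C a * X 0 ^ d ∈ tailIdeal N m ∧ F 1 - C b * X 1 ^ d ∈ tailIdeal N m) ∨
  (F 0 - C a * X 1 ^ d ∈ tailIdeal N m ∧ F 1 - C b * X 0 ^ d ∈ tailIdeal N m) ∨
  ((b = a ∨ b = -a) ∧
    F 0 - C a * X 0 ^ d ∈ tailIdeal N m ∧ F 1 - C b * dickH N d ∈ tailIdeal N m)

theorem pointwise (N d m : ℕ) (hN : 1 ≤ N) (hd : 2 ≤ d) (hm : 1 ≤ m)
    (F : Fin (N + 1) → MvPolynomial (Fin (N + 1)) ℤ)
    (hsub : ∀ i : Fin (N + 1), m < (i : ℕ) → F i ∈ tailIdeal N m)
    (a b : ℤ) (ha : a ≠ 0) (hb : b ≠ 0) (hbase : BaseType N m d F a b)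
    (p : ℕ) [Fact p.Prime] (hp3 : 2 < p) (hpa : a.natAbs < p) (hpb : b.natAbs < p) :
    3 ^ (p - 1).primeFactors.card ≤
      4 * 3 ^ (1 + ((d * (d - 1)) * (d + 1)).primeFactors.card) * comps (redMap p F) := by
  have hpp : p.Prime := Fact.out
  have hap : (a : ZMod p) ≠ 0 := cast_ne_zero_of_lt ha hpa
  have hbp : (b : ZMod p) ≠ 0 := cast_ne_zero_of_lt hb hpb
  have hD : (d * (d - 1)) * (d + 1) ≠ 0 := by
    apply Nat.mul_ne_zero (Nat.mul_ne_zero (by omega) (by omega)) (by omega)
  have hbne : (b : ZMod p) / a ≠ 0 := div_ne_zero hbp hap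
  have htail : ∀ v : Fin (N + 1) → ZMod p, (∀ j : Fin (N + 1), m < (j : ℕ) → v j = 0) →
      ∀ j : Fin (N + 1), m < (j : ℕ) → evalMod p F v j = 0 := by
    intro v hv j hj
    exact aeval_tail (hsub j hj) v hv
  have heval : ∀ (v : Fin (N + 1) → ZMod p), (∀ j : Fin (N + 1), m < (j : ℕ) → v j = 0) →
      ∀ (i : Fin (N + 1)) (c : ℤ) (Q : MvPolynomial (Fin (N + 1)) ℤ),
      F i - C c * Q ∈ tailIdeal N m → evalMod p F v i = c * aeval v Q := by
    intro v hv i c Q hQ
    have h := aeval_tail hQ v hv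
    rw [map_sub, map_mul, aeval_C, sub_eq_zero] at h
    simpa [evalMod] using h
  rcases hbase with ⟨h0, h1⟩ | ⟨h0, h1⟩ | ⟨hab, h0, h1⟩
  · -- power map
    have hT : ∀ r ∈ {r : ZMod p | r ≠ 0}, (b : ZMod p) / a * r ^ d ∈ {r : ZMod p | r ≠ 0} :=
      fun r hr => mul_ne_zero hbne (pow_ne_zero _ hr)
    have hc1 := comps_ratio_le F hN m hm {r : ZMod p | r ≠ 0}
      (fun r => (b : ZMod p) / a * r ^ d) hT (by
        intro v hv hv0 _
        have e0 := heval v hv 0 a _ h0
        have e1 := heval v hv 1 b _ h1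
        rw [map_pow, aeval_X] at e0 e1
        refine ⟨htail v hv, ?_, ?_⟩
        · rw [e0]; exact mul_ne_zero hap (pow_ne_zero _ hv0)
        · rw [e0, e1, div_pow]; field_simp)
    have hc2 := comps_units_le (Units.mk0 _ hbne) d (fun r => (b : ZMod p) / a * r ^ d) hT
      (fun u => rfl)
    refine three_pow_omega_le (by omega) (D := (d * (d - 1)) * (d + 1)) ?_ hD
      (Units.mk0 _ hbne) (e := d) ?_
    · intro q _ _ hq
      exact Dvd.dvd.mul_right hq _
    · have := hc2.trans hc1
      omega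
  · -- inverted power map
    have hT : ∀ r ∈ {r : ZMod p | r ≠ 0}, (b : ZMod p) / a * (r⁻¹) ^ d ∈ {r : ZMod p | r ≠ 0} :=
      fun r hr => mul_ne_zero hbne (pow_ne_zero _ (inv_ne_zero hr))
    have hc1 := comps_ratio_le F hN m hm {r : ZMod p | r ≠ 0}
      (fun r => (b : ZMod p) / a * (r⁻¹) ^ d) hT (by
        intro v hv hv0 hv1
        have e0 := heval v hv 0 a _ h0
        have e1 := heval v hv 1 b _ h1
        rw [map_pow, aeval_X] at e0 e1
        have hv1' : v 1 ≠ 0 := by
          intro h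
          apply hv1
          rw [h, zero_div]
        refine ⟨htail v hv, ?_, ?_⟩
        · rw [e0]; exact mul_ne_zero hap (pow_ne_zero _ hv1')
        · rw [e0, e1, inv_div, div_pow]; field_simp)
    have hc2 := comps_units_le (Units.mk0 _ hbne) ((p - 2) * d)
      (fun r => (b : ZMod p) / a * (r⁻¹) ^ d) hT (by
        intro u
        have h3 : ((u : ZMod p))⁻¹ = (u : ZMod p) ^ (p - 2) := by
          have h4 : u ^ (p - 1) = 1 := ZMod.units_pow_card_sub_one_eq_one p u
          have h5 : (u : ZMod p) ^ (p - 2) * u = 1 := by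
            rw [← pow_succ]
            have : p - 2 + 1 = p - 1 := by omega
            rw [this, ← Units.val_pow_eq_pow_val, h4, Units.val_one]
          exact (eq_inv_of_mul_eq_one_left h5).symm
        change (b : ZMod p) / a * ((u : ZMod p)⁻¹) ^ d = (b : ZMod p) / a * (u : ZMod p) ^ ((p - 2) * d)
        rw [h3, ← pow_mul])
    refine three_pow_omega_le ?_ (D := (d * (d - 1)) * (d + 1)) ?_ hD
      (Units.mk0 _ hbne) (e := (p - 2) * d) ?_
    · have : 1 ≤ p - 2 := by omega
      nlinarith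
    · intro q hq hqp hqe
      have h6 : q ∣ (p - 2) * d + d := by
        have : (p - 2) * d + d = (p - 1) * d := by
          have : p - 1 = (p - 2) + 1 := by omega
          rw [this]; ring
        rw [this]
        exact Dvd.dvd.mul_right hqp _
      rcases (Nat.Prime.dvd_mul hq).mp hqe with h7 | h7
      · have h8 : q ∣ d := (Nat.dvd_add_right h7).mp h6
        exact Dvd.dvd.mul_right (Dvd.dvd.mul_right h8 _) _
      · have h9 : 1 ≤ (p - 2) * d := by
          have : 1 ≤ p - 2 := by omega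
          nlinarith
        have h8 : (p - 2) * d + d = ((p - 2) * d - 1) + (d + 1) := by omega
        rw [h8] at h6
        have h10 : q ∣ d + 1 := (Nat.dvd_add_right h7).mp h6
        exact Dvd.dvd.mul_left h10 _
    · have := hc2.trans hc1
      omega
  · -- Chebyshev
    have hs : (b : ZMod p) / a * ((b : ZMod p) / a) = 1 := by
      rcases hab with rfl | rfl
      · rw [div_self hap, one_mul]
      · push_cast
        field_simp
    set s : (ZMod p)ˣ := Units.mk0 _ hbne with hsdef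
    have hss : s * s = 1 := Units.ext hs
    set P : Set (ZMod p) := Set.range (fun u : (ZMod p)ˣ => (u : ZMod p) + (u⁻¹ : (ZMod p)ˣ)) with hP
    set T : ZMod p → ZMod p := fun r => (s : ZMod p) * (Polynomial.dickson 1 (1 : ZMod p) d).eval r
      with hTdef
    have hsinv : s⁻¹ = s := inv_eq_of_mul_eq_one_right hss
    have hT : ∀ r ∈ P, T r ∈ P := by
      rintro _ ⟨u, rfl⟩
      refine ⟨s * u ^ d, ?_⟩
      change ((s * u ^ d : (ZMod p)ˣ) : ZMod p) + ((s * u ^ d)⁻¹ : (ZMod p)ˣ) =
        (s : ZMod p) * (Polynomial.dickson 1 (1 : ZMod p) d).eval ((u : ZMod p) + (u⁻¹ : (ZMod p)ˣ))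
      rw [Polynomial.dickson_one_one_eval_add_inv _ _ (Units.mul_inv u), mul_inv, hsinv]
      push_cast
      ring
    have hc1 := comps_ratio_le F hN m hm P T hT (by
        intro v hv hv0 _
        have e0 := heval v hv 0 a _ h0
        have e1 := heval v hv 1 b _ h1
        rw [map_pow, aeval_X] at e0
        rw [aeval_dickH v hv0] at e1
        refine ⟨htail v hv, ?_, ?_⟩
        · rw [e0]; exact mul_ne_zero hap (pow_ne_zero _ hv0)
        · rw [e0, e1]
          change _ = (b : ZMod p) / a * (Polynomial.dickson 1 (1 : ZMod p) d).eval (v 1 / v 0)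
          field_simp)
    have hc2 := comps_dickson_le s hss d T P hP hT (fun r => rfl)
    refine three_pow_omega_le (by omega) (D := (d * (d - 1)) * (d + 1)) ?_ hD s (e := d) ?_
    · intro q _ _ hq
      exact Dvd.dvd.mul_right hq _
    · omega

end Pool.Agent.Lib.MP_05805c_nt
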